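import Mathlib
import Pool.Agent.Lib.Pf72953.DBasis
import Pool.Agent.Lib.Pf72953.Defs

/-!
Smooth affine charts with étale coordinates over a field of characteristic zero.
-/

set_option autoImplicit false

namespace Pf72953.Up

/-- `Spec A` is a smooth affine variety over `κ` with function field `K` and étale coordinates `x`. -/
structure Chart {κ K ι : Type*} [Field κ] [CharZero κ] [Field K] [Algebra κ K] {x : ι → K}
    (hx : IsTranscendenceBasis κ x) (A : Subalgebra κ K) : Prop where
  fg : A.FG
  frac : ∀ f : K, ∃ g ∈ A, ∃ h ∈ A, h ≠ 0 ∧ f = g / h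
  mem : ∀ i, x i ∈ A
  der : ∀ a, ∀ f ∈ A, pd hx a f ∈ A

end Pf72953.Up
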