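import Mathlib
import Pool.Agent.Lib.Pf72953u.Chart

/-!
MODULE Pf72953u.Cond: a domain finitely generated over a field of characteristic zero has a nonzero
conductor (its integral closure is finite).

PROOF.  `A` is a domain, finitely generated over `κ`, and `K` is its field of fractions
(`IsFractionRing A K` from `hfrac`).  Noether normalisation
(`exists_finite_inj_algHom_of_fg` or `exists_integral_inj_algHom_of_fg`, Mathlib
`RingTheory/NoetherNormalization.lean`): there is an injective finite `g : MvPolynomial (Fin s) κ →ₐ[κ] A`.
`R := MvPolynomial (Fin s) κ` is a UFD, hence integrally closed, and noetherian.  Let `Q := FractionRing R`;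
`K` is a finite extension of `Q` (it is algebraic over `Q`, as `A` is integral over `R` and `K = Frac A`, and
generated over `Q` by the finitely many generators of the `R`-module `A`), separable since the characteristic
is zero.  By `IsIntegralClosure.finite` / `IsIntegralClosure.isNoetherian` (separable case) the integral
closure of `R` in `K` is a finite `R`-module; it contains (in fact equals) the elements integral over `A`
(`isIntegral_trans`).  Take generators `z_1, ..., z_r`, write `z_i = a_i / b_i` with `a_i, b_i ∈ A`,
`b_i ≠ 0` and put `c = ∏ b_i`; then `c z ∈ A` for every `z` which is integral over `A`.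
-/

set_option autoImplicit false

namespace Pf72953.Up

theorem exists_conductor {κ K : Type*} [Field κ] [CharZero κ] [Field K] [Algebra κ K]
    (A : Subalgebra κ K) (hfg : A.FG)
    (hfrac : ∀ f : K, ∃ g ∈ A, ∃ h ∈ A, h ≠ 0 ∧ f = g / h) :
    ∃ c ∈ A, c ≠ 0 ∧ ∀ z : K, IsIntegral A z → c * z ∈ A := by
  classical
  have hft : Algebra.FiniteType κ A := (Subalgebra.fg_iff_finiteType A).1 hfg
  obtain ⟨s, g, hinj, hfin⟩ := exists_finite_inj_algHom_of_fg κ A
  let R := MvPolynomial (Fin s) κ
  let : Algebra R A := g.toRingHom.toAlgebra
  let : Algebra R K := (A.val.toRingHom.comp g.toRingHom).toAlgebra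
  have : IsScalarTower R A K := IsScalarTower.of_algebraMap_eq (fun _ => rfl)
  have hRA : Module.Finite R A := hfin
  have hinjK : Function.Injective (algebraMap R K) := by
    intro x y hxy
    exact hinj (Subtype.val_injective hxy)
  have : FaithfulSMul R K := (faithfulSMul_iff_algebraMap_injective R K).2 hinjK
  let Q := FractionRing R
  let : Algebra Q K := FractionRing.liftAlgebra R K
  have : IsScalarTower R Q K := FractionRing.isScalarTower_liftAlgebra R K
  have : CharZero R := inferInstance
  have : CharZero Q := inferInstance
  have hint : Algebra.IsIntegral R A := Algebra.IsIntegral.of_finite R A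
  have hintA : ∀ x : K, x ∈ A → IsIntegral R x := by
    intro x hx
    have h1 : IsIntegral R (⟨x, hx⟩ : A) := Algebra.IsIntegral.isIntegral _
    exact h1.map (IsScalarTower.toAlgHom R A K)
  obtain ⟨t, ht⟩ := hRA.fg_top
  let T : Set K := (fun x : A => (x : K)) '' (t : Set A)
  have hTfin : T.Finite := t.finite_toSet.image _
  have hAmem : ∀ x : K, x ∈ A → x ∈ IntermediateField.adjoin Q T := by
    intro x hx
    have h1 : (⟨x, hx⟩ : A) ∈ Submodule.span R (t : Set A) := by
      rw [ht]
      trivial
    have h2 : ∀ y : A, y ∈ Submodule.span R (t : Set A) →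
        (y : K) ∈ IntermediateField.adjoin Q T := by
      intro y hy
      induction hy using Submodule.span_induction with
      | mem y hy => exact IntermediateField.subset_adjoin Q T ⟨y, hy, rfl⟩
      | zero => exact zero_mem _
      | add y z _ _ h3 h4 => exact add_mem h3 h4
      | smul r y _ h3 =>
        have h4 : ((r • y : A) : K) = (algebraMap Q K (algebraMap R Q r)) * (y : K) := by
          rw [← IsScalarTower.algebraMap_apply R Q K, Algebra.smul_def]
          rfl
        rw [h4]
        exact mul_mem (IntermediateField.algebraMap_mem _ _) h3
    exact h2 _ h1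
  have htop : IntermediateField.adjoin Q T = ⊤ := by
    rw [eq_top_iff]
    intro f _
    obtain ⟨a, ha, b, hb, _, rfl⟩ := hfrac f
    exact div_mem (hAmem a ha) (hAmem b hb)
  have : Finite T := hTfin.to_subtype
  have hfd1 : FiniteDimensional Q (IntermediateField.adjoin Q T) := by
    refine IntermediateField.finiteDimensional_adjoin ?_
    rintro _ ⟨x, _, rfl⟩
    exact (hintA x x.2).tower_top
  have hfd : FiniteDimensional Q K := by
    rw [htop] at hfd1
    exact Module.Finite.equiv (IntermediateField.topEquiv (F := Q) (E := K)).toLinearEquiv
  have : Algebra.IsSeparable Q K := inferInstance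
  have hfinC : Module.Finite R (integralClosure R K) := IsIntegralClosure.finite R Q K _
  obtain ⟨u, hu⟩ := hfinC.fg_top
  choose num hnum den hden hden0 heq using hfrac
  refine ⟨∏ z ∈ u, den z, prod_mem fun z _ => hden z,
    Finset.prod_ne_zero_iff.2 fun z _ => hden0 z, ?_⟩
  intro z hz
  have hzR : IsIntegral R z := by
    have : Algebra.IsIntegral R A := hint
    exact isIntegral_trans z hz
  have h1 : (⟨z, hzR⟩ : integralClosure R K) ∈ Submodule.span R (u : Set (integralClosure R K)) := by
    rw [hu]
    trivial
  have h2 : ∀ y : integralClosure R K, y ∈ Submodule.span R (u : Set (integralClosure R K)) →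
      (∏ z ∈ u, den (z : K)) * (y : K) ∈ A := by
    intro y hy
    induction hy using Submodule.span_induction with
    | mem y hy =>
      have h3 : (∏ z ∈ u, den (z : K)) * (y : K) =
          (∏ z ∈ u.erase y, den (z : K)) * num (y : K) := by
        rw [← Finset.prod_erase_mul _ _ hy, mul_assoc]
        congr 1
        have h5 := heq (y : K)
        rw [eq_div_iff (hden0 _)] at h5
        rw [mul_comm]
        exact h5
      rw [h3]
      exact mul_mem (prod_mem fun z _ => hden z) (hnum _)
    | zero => simp
    | add y z _ _ h3 h4 =>
      have : ((y + z : integralClosure R K) : K) = (y : K) + (z : K) := rfl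
      rw [this, mul_add]
      exact add_mem h3 h4
    | smul r y _ h3 =>
      have h4 : ((r • y : integralClosure R K) : K) = ((g r : A) : K) * (y : K) := by
        change r • (y : K) = _
        rw [Algebra.smul_def]
        rfl
      rw [h4, mul_left_comm]
      exact mul_mem (g r).2 h3
  exact h2 _ h1

end Pf72953.Up
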