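import Mathlib
import Pool.Agent.Lib.Pf72953.Bases
import Pool.Agent.Lib.Pf72953.Adapted
import Pool.Agent.Lib.Pf72953m.Wron
import Pool.Agent.Lib.Pf72953u.Chart

/-!
MODULE Pf72953u.Divis: a discrete valuation ring which is a localisation of a smooth affine chart is
divisorial, and the étale coordinates are a regular basis for it.

PROOF.  (1) `RegBasis κ v x`: `hx` is the transcendence basis, `v (x i) ≤ 1` by `hA` and `h.mem`; if `v z ≤ 1`
write `z = a / b`, `a, b ∈ A`, `v b = 1`; then `pd z = (pd a * b - a * pd b) / b ^ 2` (`Derivation.leibniz_div`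
or apply `pd` to `z * b = a`) has value `≤ 1`.
(2) Let `t` be a uniformizer (`exists_unif v hnt`, structure `IsUnif`).  CLAIM: `v (pd hx a₀ t) = 1` for some
`a₀`.  If not, `v (pd hx a t) < 1` for all `a`, then for every `z` with `v z < 1`, `z = t * u` with
`v u ≤ 1`, `pd z = pd t * u + t * pd u` has value `< 1`; so the ideal `P = {f ∈ A : v f < 1}` of `A` is proper,
stable under all `pd hx a`, and nonzero (some `z ≠ 0` has `v z < 1`; write `z = a / b`, `v b = 1`, then
`a ∈ P`, `a ≠ 0`).  All words in the `pd` of `a` lie in `P`, contradicting `exists_word_notMem`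
(namespace `Pf72953.Mov`, file Pf72953m/Wron.lean).
(3) For `j : ι` the derivation `∂_j := pd hx a₀ t • pd hx j - pd hx j t • pd hx a₀` satisfies `∂_j t = 0`, so
`v (∂_j z) < 1` whenever `v z < 1`; and for `i, j ≠ a₀`, `∂_j (x i) = pd hx a₀ t * δ_ij`.
(4) The residues of the `x i`, `i ≠ a₀`, are algebraically independent: for every nonzero polynomial `p` over
`κ` in the variables `i ≠ a₀` one has `v (p(x)) = 1`.  Induct on the total degree: a nonzero constant has
value one (it and its inverse lie in `A`).  If `p` is not constant then some partial derivative `p_j` is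
nonzero of smaller total degree (lemmas `totalDegree_pderiv_lt`, `exists_pderiv_ne_zero` in Wron.lean), so
`v (p_j(x)) = 1`; `v (p(x)) ≤ 1`; were `v (p(x)) < 1` then `v (∂_j (p(x))) < 1`, but
`∂_j (p(x)) = ∑_i p_i(x) ∂_j (x i) = pd hx a₀ t * p_j(x)` has value `1` (`MvPolynomial.mkDerivation` /
`Derivation` chain rule; compare `pd_aeval` in Wron.lean).
(5) `Fintype.card ι = dimension κ K` (`card_eq_of_isTranscendenceBasis hx`), so `{i // i ≠ a₀}` has
`dimension κ K - 1` elements; reindex by `Fin (dimension κ K - 1)` (`MvPolynomial.rename`).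
-/

set_option autoImplicit false

open scoped WithZero

namespace Pf72953.Up

namespace DivisAux

variable {κ K ι : Type*} [Field κ] [CharZero κ] [Field K] [Algebra κ K] [Fintype ι]
  [DecidableEq ι] {x : ι → K} {hx : IsTranscendenceBasis κ x} {A : Subalgebra κ K}
  {v : Valuation K ℤᵐ⁰}

omit [CharZero κ] [Fintype ι] [DecidableEq ι] in
theorem val_const (hA : ∀ a ∈ A, v a ≤ 1) {c : κ} (hc : c ≠ 0) : v (algebraMap κ K c) = 1 := by
  have h1 := hA _ (A.algebraMap_mem c)
  have h2 := hA _ (A.algebraMap_mem c⁻¹)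
  have h3 : v (algebraMap κ K c) * v (algebraMap κ K c⁻¹) = 1 := by
    rw [← map_mul, ← map_mul, mul_inv_cancel₀ hc, map_one, map_one]
  refine le_antisymm h1 ?_
  rw [← h3]
  exact mul_le_of_le_one_right' h2

omit [Fintype ι] [DecidableEq ι] in
theorem val_pd (h : Chart hx A) (hA : ∀ a ∈ A, v a ≤ 1)
    (hloc : ∀ z, v z ≤ 1 → ∃ a ∈ A, ∃ b ∈ A, v b = 1 ∧ z = a / b) (i : ι) {z : K}
    (hz : v z ≤ 1) : v (pd hx i z) ≤ 1 := by
  obtain ⟨a, ha, b, hb, hvb, rfl⟩ := hloc z hz
  have hb0 : b ≠ 0 := by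
    rintro rfl
    rw [map_zero] at hvb
    exact zero_ne_one hvb
  have h1 : (a / b) * b = a := div_mul_cancel₀ a hb0
  have h2 : (a / b) * pd hx i b + b * pd hx i (a / b) = pd hx i a := by
    have := (pd hx i).leibniz (a / b) b
    rw [h1, smul_eq_mul, smul_eq_mul] at this
    exact this.symm
  have h3 : b * pd hx i (a / b) = pd hx i a - (a / b) * pd hx i b := by rw [← h2]; ring
  have h4 : v (pd hx i (a / b)) = v (b * pd hx i (a / b)) := by rw [map_mul, hvb, one_mul]
  rw [h4, h3]
  refine (v.map_sub _ _).trans (max_le (hA _ (h.der i a ha)) ?_)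
  rw [map_mul]
  exact mul_le_one' hz (hA _ (h.der i b hb))

omit [DecidableEq ι] in
theorem exists_unit_der (h : Chart hx A) (hA : ∀ a ∈ A, v a ≤ 1)
    (hloc : ∀ z, v z ≤ 1 → ∃ a ∈ A, ∃ b ∈ A, v b = 1 ∧ z = a / b) {t : K} (ht : IsUnif v t) :
    ∃ a₀, v (pd hx a₀ t) = 1 := by
  by_contra hcon
  push Not at hcon
  have hlt : ∀ a, v (pd hx a t) < 1 := fun a =>
    lt_of_le_of_ne (val_pd h hA hloc a ht.lt_one.le) (hcon a)
  have hpd : ∀ z, v z < 1 → ∀ a, v (pd hx a z) < 1 := by
    intro z hz a
    have hu : v (z / t) ≤ 1 := by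
      rw [map_div₀]
      exact div_le_one_of_le₀ (ht.le z hz) zero_le
    have h1 : z = t * (z / t) := by rw [mul_div_cancel₀]; exact ht.ne_zero
    have h2 : pd hx a z = t * pd hx a (z / t) + (z / t) * pd hx a t := by
      conv_lhs => rw [h1]
      rw [Derivation.leibniz, smul_eq_mul, smul_eq_mul]
    rw [h2]
    refine v.map_add_lt ?_ ?_
    · rw [map_mul]
      exact mul_lt_one_of_lt_of_le ht.lt_one (val_pd h hA hloc a hu)
    · rw [map_mul]
      exact lt_of_le_of_lt (mul_le_of_le_one_left' hu) (hlt a)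
  let P : Ideal A :=
    { carrier := {f | v (f : K) < 1}
      add_mem' := fun {a b} ha hb => by
        change v ((a : K) + b) < 1
        exact v.map_add_lt ha hb
      zero_mem' := by
        change v ((0 : A) : K) < 1
        rw [ZeroMemClass.coe_zero, map_zero]
        exact zero_lt_one
      smul_mem' := fun c a ha => by
        change v ((c : K) * a) < 1
        rw [map_mul]
        exact lt_of_le_of_lt (mul_le_of_le_one_left' (hA _ c.2)) ha }
  have hP : P ≠ ⊤ := by
    intro hP
    have h1 : (1 : A) ∈ P := by rw [hP]; trivial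
    have h2 : v ((1 : A) : K) < 1 := h1
    rw [OneMemClass.coe_one, map_one] at h2
    exact lt_irrefl _ h2
  obtain ⟨a, ha, b, hb, hvb, e⟩ := hloc t ht.lt_one.le
  have hb0 : b ≠ 0 := by
    rintro rfl
    rw [map_zero] at hvb
    exact zero_ne_one hvb
  have hat : a = t * b := by rw [e, div_mul_cancel₀ a hb0]
  have ha0 : a ≠ 0 := by rw [hat]; exact mul_ne_zero ht.ne_zero hb0
  have hva : v a < 1 := by rw [hat, map_mul, hvb, mul_one]; exact ht.lt_one
  obtain ⟨α, hα⟩ := Mov.exists_word_notMem hx h.mem h.der P hP ha ha0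
  apply hα
  change v (Mov.word hx α a) < 1
  clear hα
  induction α with
  | nil => exact hva
  | cons i α ih => exact hpd _ ih i

omit [Fintype ι] in
theorem pd_aeval_sub {s : Set ι} (a : ι) (p : MvPolynomial s κ) :
    (∀ j : s, (j : ι) = a → pd hx a (MvPolynomial.aeval (fun i : s => x i) p) =
      MvPolynomial.aeval (fun i : s => x i) (MvPolynomial.pderiv j p)) ∧
    (a ∉ s → pd hx a (MvPolynomial.aeval (fun i : s => x i) p) = 0) := by
  induction p using MvPolynomial.induction_on with
  | C c =>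
    refine ⟨fun j _ => ?_, fun _ => ?_⟩
    · rw [MvPolynomial.aeval_C, Derivation.map_algebraMap, MvPolynomial.pderiv_C, map_zero]
    · rw [MvPolynomial.aeval_C, Derivation.map_algebraMap]
  | add p q hp hq =>
    refine ⟨fun j hj => ?_, fun ha => ?_⟩
    · rw [map_add, map_add, map_add, map_add, hp.1 j hj, hq.1 j hj]
    · rw [map_add, map_add, hp.2 ha, hq.2 ha, add_zero]
  | mul_X p i hp =>
    refine ⟨fun j hj => ?_, fun ha => ?_⟩
    · rw [map_mul, MvPolynomial.aeval_X, Derivation.leibniz, hp.1 j hj, pd_self,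
        Derivation.leibniz, map_add, smul_eq_mul, smul_eq_mul, smul_eq_mul, smul_eq_mul, map_mul,
        map_mul, MvPolynomial.aeval_X, MvPolynomial.pderiv_X]
      congr 2
      by_cases hai : a = i
      · have : j = i := Subtype.ext (hj.trans hai)
        subst this
        simp [hai]
      · have : j ≠ i := fun h0 => hai (by rw [← h0, hj])
        rw [if_neg hai, Pi.single_eq_of_ne (Ne.symm this), map_zero]
    · have hne : a ≠ i := fun h0 => ha (h0 ▸ i.2)
      rw [map_mul, MvPolynomial.aeval_X, Derivation.leibniz, hp.2 ha, pd_self, if_neg hne]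
      simp

omit [Fintype ι] in
theorem val_poly (h : Chart hx A) (hA : ∀ a ∈ A, v a ≤ 1)
    (hloc : ∀ z, v z ≤ 1 → ∃ a ∈ A, ∃ b ∈ A, v b = 1 ∧ z = a / b) {t : K} (ht : IsUnif v t)
    {a₀ : ι} (ha₀ : v (pd hx a₀ t) = 1) :
    ∀ n : ℕ, ∀ p : MvPolynomial ({i | i ≠ a₀} : Set ι) κ, p.totalDegree = n → p ≠ 0 →
      v (MvPolynomial.aeval (fun i : ({i | i ≠ a₀} : Set ι) => x i) p) = 1 := by
  intro n
  induction n using Nat.strong_induction_on with
  | _ n ih =>
    intro p hpn hp0
    by_cases h0 : p.totalDegree = 0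
    · rw [MvPolynomial.totalDegree_eq_zero_iff_eq_C] at h0
      have hc0 : MvPolynomial.coeff 0 p ≠ 0 := by
        intro hc
        rw [hc, map_zero] at h0
        exact hp0 h0
      rw [h0, MvPolynomial.aeval_C]
      exact val_const hA hc0
    · obtain ⟨j, hj⟩ := Mov.exists_pderiv_ne_zero h0
      have h1 := ih _ (by rw [← hpn]; exact Mov.totalDegree_pderiv_lt hj) _ rfl hj
      set z : K := MvPolynomial.aeval (fun i : ({i | i ≠ a₀} : Set ι) => x i) p with hz
      have hzA : z ∈ A := by
        have h2 : z ∈ (MvPolynomial.aeval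
            (fun i : ({i | i ≠ a₀} : Set ι) => x i) : _ →ₐ[κ] K).range := ⟨p, rfl⟩
        rw [← Algebra.adjoin_range_eq_range_aeval] at h2
        refine (Algebra.adjoin_le (S := A) ?_) h2
        rintro _ ⟨i, rfl⟩
        exact h.mem i
      by_contra hne
      have hlt : v z < 1 := lt_of_le_of_ne (hA z hzA) hne
      have hu : v (z / t) ≤ 1 := by
        rw [map_div₀]
        exact div_le_one_of_le₀ (ht.le z hlt) zero_le
      have e1 : z = t * (z / t) := by rw [mul_div_cancel₀]; exact ht.ne_zero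
      have e2 : ∀ i, pd hx i z = t * pd hx i (z / t) + (z / t) * pd hx i t := by
        intro i
        conv_lhs => rw [e1]
        rw [Derivation.leibniz, smul_eq_mul, smul_eq_mul]
      have e3 : pd hx a₀ z = 0 := (pd_aeval_sub (s := {i | i ≠ a₀}) a₀ p).2 (fun h => h rfl)
      have e4 : pd hx j z = MvPolynomial.aeval (fun i : ({i | i ≠ a₀} : Set ι) => x i)
          (MvPolynomial.pderiv j p) := (pd_aeval_sub (s := {i | i ≠ a₀}) (j : ι) p).1 j rfl
      have e5 : pd hx a₀ t * pd hx j z =
          t * (pd hx a₀ t * pd hx j (z / t) - pd hx j t * pd hx a₀ (z / t)) := by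
        have h3 := e2 a₀
        rw [e3] at h3
        rw [e2 j]
        linear_combination (-(pd hx j t)) * h3
      have h4 : v (pd hx a₀ t * pd hx j z) = 1 := by
        rw [map_mul, ha₀, one_mul, e4, h1]
      have h5 : v (t * (pd hx a₀ t * pd hx j (z / t) - pd hx j t * pd hx a₀ (z / t))) < 1 := by
        rw [map_mul]
        refine mul_lt_one_of_lt_of_le ht.lt_one ?_
        refine (v.map_sub _ _).trans (max_le ?_ ?_)
        · rw [map_mul, ha₀, one_mul]
          exact val_pd h hA hloc _ hu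
        · rw [map_mul]
          exact mul_le_one' (val_pd h hA hloc _ ht.lt_one.le) (val_pd h hA hloc _ hu)
      rw [← e5, h4] at h5
      exact lt_irrefl _ h5

end DivisAux

open DivisAux in
theorem Chart.isDivisorial {κ K ι : Type*} [Field κ] [CharZero κ] [Field K] [Algebra κ K]
    [Fintype ι] [DecidableEq ι] {x : ι → K} {hx : IsTranscendenceBasis κ x} {A : Subalgebra κ K}
    (h : Chart hx A) {v : Valuation K ℤᵐ⁰} (hA : ∀ a ∈ A, v a ≤ 1)
    (hnt : ∃ a : K, a ≠ 0 ∧ v a ≠ 1)
    (hloc : ∀ z, v z ≤ 1 → ∃ a ∈ A, ∃ b ∈ A, v b = 1 ∧ z = a / b) :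
    IsDivisorial κ K v ∧ RegBasis κ v x := by
  obtain ⟨t, ht⟩ := exists_unif v hnt
  obtain ⟨a₀, ha₀⟩ := exists_unit_der h hA hloc ht
  refine ⟨⟨fun c hc => val_const hA hc, hnt, ?_⟩,
    ⟨hx, fun i => hA _ (h.mem i), fun i a ha => val_pd h hA hloc i ha⟩⟩
  have hcard : Fintype.card ({i | i ≠ a₀} : Set ι) = dimension κ K - 1 := by
    rw [← card_eq_of_isTranscendenceBasis hx]
    have : Fintype.card ({i | i ≠ a₀} : Set ι) = Fintype.card {i // i ≠ a₀} := rfl
    rw [this, Fintype.card_subtype_compl, Fintype.card_subtype_eq]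
  let e : Fin (dimension κ K - 1) ≃ ({i | i ≠ a₀} : Set ι) := (Fintype.equivFinOfCardEq hcard).symm
  refine ⟨fun i => x (e i), fun p hp => ?_⟩
  have h1 : MvPolynomial.aeval (fun i => x (e i)) p =
      MvPolynomial.aeval (fun i : ({i | i ≠ a₀} : Set ι) => x i) (MvPolynomial.rename e p) := by
    rw [MvPolynomial.aeval_rename]
    rfl
  rw [h1]
  refine val_poly h hA hloc ht ha₀ _ _ rfl ?_
  intro h0
  apply hp
  apply MvPolynomial.rename_injective e e.injective
  rw [h0, map_zero]

end Pf72953.Up
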