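import Mathlib
import Pool.Agent.Lib.Pf72953u.Chart

/-!
MODULE Pf72953u.Dvr: a noetherian normal domain is the intersection of discrete valuation rings which are
localisations.

PROOF.  `A` is a noetherian integrally closed domain with fraction field `K`, `f ∉ A`.  For `g ∈ A` with
`g f ∉ A` put `I_g = {a ∈ A : a g f ∈ A}`, a proper ideal.  Choose `g` with `I_g` maximal among these ideals
(noetherian, `set_has_maximal_iff_noetherian`); `P := I_g` is prime: if `a b ∈ P`, `b ∉ P` then `b g f ∉ A`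
and `I_{bg} ⊇ I_g` contains `a`; by maximality `I_{bg} = I_g ∋ a`.  Put `F = g f`, so `P F ⊆ A`, `F ∉ A`, and
`F ∉ A_P` (if `b F ∈ A`, `b ∈ A \ P` then `b ∈ I_g = P`).  `P ≠ 0` since `F` is a fraction.
CLAIM: there is `t ∈ P` with `t F ∉ P` (so `t F` is a unit of `A_P`).  Otherwise `P F ⊆ P`, `P` is a nonzero
finitely generated `A`-module which is faithful, so `F` is integral over `A` (e.g. `isIntegral_of_smul_mem_submodule`
with the `A`-submodule of `K` given by `P`), so `F ∈ A`, contradiction.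
Hence for `p ∈ P`: `p = (p F) (t F)⁻¹ t` with `p F ∈ A`, `(t F)⁻¹ ∈ A_P`: the maximal ideal of
`R := Localization.AtPrime P` (a noetherian local domain, not a field, with fraction field `K`) is generated
by `t`; so `R` is a discrete valuation ring (`IsDiscreteValuationRing` TFAE:
`tfae_of_isNoetherianRing_of_isLocalRing_of_isDomain`, maximal ideal principal).  Let `v` be the valuation
`IsDedekindDomain.HeightOneSpectrum.valuation K` of its maximal ideal; `v z ≤ 1` iff `z ∈ R` (there is only
one prime), i.e. iff `z = a / b`, `a ∈ A`, `b ∈ A \ P`; and `v b = 1` for `b ∈ A \ P`.  Finally `1 < v F`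
because `F ∉ A_P`, and `v F = v g * v f ≤ v f`.
(Alternatively avoid localisations: every nonzero `z ∈ K` is `t ^ n * a / b` with `a, b ∈ A \ P`, `n ∈ ℤ`,
using Krull's intersection theorem, and define `v` directly.)
-/

set_option autoImplicit false

open scoped WithZero

namespace Pf72953.Up

namespace DvrAux

open IsLocalRing

theorem local_val {R K : Type*} [CommRing R] [IsDomain R] [IsLocalRing R] [IsNoetherianRing R]
    [Field K] [Algebra R K] [IsFractionRing R K] (hp : (maximalIdeal R).IsPrincipal)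
    (hne : maximalIdeal R ≠ ⊥) :
    ∃ v : Valuation K ℤᵐ⁰, ∀ z, v z ≤ 1 ↔ ∃ r : R, algebraMap R K r = z := by
  have hD : IsDedekindDomain R :=
    ((tfae_of_isNoetherianRing_of_isLocalRing_of_isDomain R).out 4 2).1 hp
  let v0 : IsDedekindDomain.HeightOneSpectrum R := ⟨maximalIdeal R, inferInstance, hne⟩
  refine ⟨v0.valuation K, fun z => ⟨fun h => ?_, ?_⟩⟩
  · obtain ⟨r, hr⟩ := IsDedekindDomain.HeightOneSpectrum.mem_integers_of_valuation_le_one
      (R := R) K z (fun w => by
        have hw : w = v0 := by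
          apply IsDedekindDomain.HeightOneSpectrum.ext
          exact eq_maximalIdeal w.isMaximal
        rw [hw]
        exact h)
    exact ⟨r, hr⟩
  · rintro ⟨r, rfl⟩
    exact v0.valuation_le_one r

variable {κ K : Type*} [Field κ] [Field K] [Algebra κ K] (A : Subalgebra κ K)

/-- the denominators of `F` -/
def den (F : K) : Ideal A where
  carrier := {a | (a : K) * F ∈ A}
  add_mem' {a b} ha hb := by
    show ((a + b : A) : K) * F ∈ A
    have : ((a + b : A) : K) * F = (a : K) * F + (b : K) * F := by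
      push_cast
      ring
    rw [this]
    exact A.add_mem ha hb
  zero_mem' := by
    show ((0 : A) : K) * F ∈ A
    simp
  smul_mem' c a ha := by
    show ((c * a : A) : K) * F ∈ A
    have : ((c * a : A) : K) * F = (c : K) * ((a : K) * F) := by
      push_cast
      ring
    rw [this]
    exact A.mul_mem c.2 ha

theorem mem_den {F : K} {a : A} : a ∈ den A F ↔ (a : K) * F ∈ A := Iff.rfl

theorem exists_prime [IsNoetherianRing A] {f : K} (hf : f ∉ A) :
    ∃ g : A, (den A ((g : K) * f)).IsPrime ∧ (g : K) * f ∉ A := by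
  obtain ⟨M, ⟨g, hg, rfl⟩, hmax⟩ := set_has_maximal_iff_noetherian.2 (inferInstance :
    IsNoetherian A A) {I : Ideal A | ∃ g : A, (g : K) * f ∉ A ∧ I = den A ((g : K) * f)}
    ⟨_, 1, by simpa using hf, rfl⟩
  refine ⟨g, ⟨fun h => ?_, fun {a b} hab => ?_⟩, hg⟩
  · have h1 : (1 : A) ∈ den A ((g : K) * f) := by rw [h]; trivial
    rw [mem_den] at h1
    exact hg (by simpa using h1)
  · by_contra hcon
    push Not at hcon
    obtain ⟨ha, hb⟩ := hcon
    rw [mem_den] at hb
    have e : ((b * g : A) : K) * f = (b : K) * ((g : K) * f) := by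
      push_cast
      ring
    have hle : den A ((g : K) * f) ≤ den A (((b * g : A) : K) * f) := by
      intro c hc
      rw [mem_den] at hc ⊢
      have : (c : K) * (((b * g : A) : K) * f) = (b : K) * ((c : K) * ((g : K) * f)) := by
        push_cast
        ring
      rw [this]
      exact A.mul_mem b.2 hc
    have hnl := hmax _ ⟨b * g, by rw [e]; exact hb, rfl⟩
    have heq := hle.eq_of_not_lt hnl
    apply ha
    rw [heq, mem_den]
    have : (a : K) * (((b * g : A) : K) * f) = ((a * b : A) : K) * ((g : K) * f) := by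
      push_cast
      ring
    rw [this]
    exact hab

end DvrAux

open DvrAux IsLocalRing in
theorem exists_dvr {κ K : Type*} [Field κ] [Field K] [Algebra κ K] (A : Subalgebra κ K)
    [IsNoetherianRing A] (hfrac : ∀ f : K, ∃ g ∈ A, ∃ h ∈ A, h ≠ 0 ∧ f = g / h)
    (hnorm : ∀ z : K, IsIntegral A z → z ∈ A) {f : K} (hf : f ∉ A) :
    ∃ v : Valuation K ℤᵐ⁰, (∀ a ∈ A, v a ≤ 1) ∧ 1 < v f ∧
      ∀ z, v z ≤ 1 → ∃ a ∈ A, ∃ b ∈ A, v b = 1 ∧ z = a / b := by
  obtain ⟨g, hP, hg⟩ := exists_prime A hf
  set F : K := (g : K) * f with hF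
  set P : Ideal A := den A F with hPd
  have : P.IsPrime := hP
  have hmem : ∀ a : A, a ∈ P ↔ (a : K) * F ∈ A := fun a => Iff.rfl
  -- `P` is not zero
  have hPne : P ≠ ⊥ := by
    obtain ⟨a, ha, h, hh, hh0, e⟩ := hfrac F
    intro hb
    have h1 : (⟨h, hh⟩ : A) ∈ P := by
      rw [hmem, e]
      show h * (a / h) ∈ A
      rw [mul_div_cancel₀ _ hh0]
      exact ha
    rw [hb, Ideal.mem_bot] at h1
    exact hh0 (congrArg Subtype.val h1)
  -- the uniformiser
  obtain ⟨t, htP, htF⟩ : ∃ t ∈ P, ∀ h : (t : K) * F ∈ A, (⟨(t : K) * F, h⟩ : A) ∉ P := by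
    by_contra hcon
    push Not at hcon
    apply hg
    apply hnorm
    refine isIntegral_of_smul_mem_submodule (R := A) (M := K)
      (Submodule.map (Algebra.linearMap A K) P) ?_ ?_ F ?_
    · intro hb
      apply hPne
      rw [eq_bot_iff]
      intro a ha
      have h1 : (Algebra.linearMap A K) a ∈ (Submodule.map (Algebra.linearMap A K) P) :=
        Submodule.mem_map_of_mem ha
      rw [hb, Submodule.mem_bot] at h1
      rw [Ideal.mem_bot]
      exact Subtype.ext h1
    · exact Submodule.FG.map _ (IsNoetherian.noetherian P)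
    · rintro n ⟨a, ha, rfl⟩
      obtain ⟨h, hh⟩ := hcon a ha
      refine ⟨⟨(a : K) * F, h⟩, hh, ?_⟩
      show (a : K) * F = F * (a : K)
      ring
  have htA : (t : K) * F ∈ A := htP
  set w : A := ⟨(t : K) * F, htA⟩ with hw
  have hwP : w ∉ P := htF htA
  -- the localisation
  have hfr : IsFractionRing A K := by
    refine IsFractionRing.of_field A K fun z => ?_
    obtain ⟨a, ha, h, hh, -, e⟩ := hfrac z
    exact ⟨⟨a, ha⟩, ⟨h, hh⟩, e⟩
  have hS : P.primeCompl ≤ nonZeroDivisors A := by
    intro s hs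
    rw [mem_nonZeroDivisors_iff_ne_zero]
    rintro rfl
    exact hs P.zero_mem
  set R := Localization.subalgebra.ofField K P.primeCompl hS with hR
  have : IsLocalization.AtPrime R P := Localization.subalgebra.isLocalization_ofField K _ hS
  have : IsLocalRing R := IsLocalization.AtPrime.isLocalRing R P
  have : IsNoetherianRing R := IsLocalization.isNoetherianRing P.primeCompl R inferInstance
  have hRmem : ∀ z : K, z ∈ R ↔ ∃ a s : A, s ∉ P ∧ z = a / s := by
    intro z
    constructor
    · rintro ⟨a, s, hs, e⟩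
      exact ⟨a, s, hs, by rw [e, div_eq_mul_inv]; rfl⟩
    · rintro ⟨a, s, hs, e⟩
      exact ⟨a, s, hs, by rw [e, div_eq_mul_inv]; rfl⟩
  have hAR : ∀ a : A, (a : K) ∈ R := fun a => (hRmem _).2 ⟨a, 1, fun h => hP.ne_top
    ((Ideal.eq_top_iff_one P).2 h), by simp⟩
  have hne0 : ∀ s : A, s ∉ P → (s : K) ≠ 0 := by
    intro s hs h
    apply hs
    have : s = 0 := Subtype.ext h
    rw [this]
    exact P.zero_mem
  have hinvR : ∀ s : A, s ∉ P → (s : K)⁻¹ ∈ R := fun s hs => (hRmem _).2 ⟨1, s, hs, by simp⟩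
  have hmaxiff : ∀ a : A, (⟨(a : K), hAR a⟩ : R) ∈ maximalIdeal R ↔ a ∈ P := by
    intro a
    have := IsLocalization.AtPrime.to_map_mem_maximal_iff R P a
    exact this
  have htmax : (⟨(t : K), hAR t⟩ : R) ∈ maximalIdeal R := (hmaxiff t).2 htP
  have ht0 : (t : K) ≠ 0 := by
    intro h
    apply hne0 w hwP
    show (t : K) * F = 0
    rw [h, zero_mul]
  have hprin : (maximalIdeal R).IsPrincipal := by
    refine ⟨⟨⟨(t : K), hAR t⟩, ?_⟩⟩
    apply le_antisymm
    · rintro ⟨m, hm⟩ hmm
      obtain ⟨a, s, hs, e⟩ := (hRmem m).1 hm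
      have hs0 := hne0 s hs
      have haP : a ∈ P := by
        rw [← hmaxiff a]
        have e2 : (⟨(a : K), hAR a⟩ : R) = ⟨(s : K), hAR s⟩ * ⟨m, hm⟩ := by
          apply Subtype.ext
          show (a : K) = (s : K) * m
          rw [e]
          field_simp
        rw [e2]
        exact Ideal.mul_mem_left _ _ hmm
      have haF : (a : K) * F ∈ A := haP
      have hsw : s * w ∉ P := fun h => (hP.mem_or_mem h).elim hs hwP
      rw [Ideal.submodule_span_eq, Ideal.mem_span_singleton']
      refine ⟨⟨((a : K) * F) / ((s * w : A) : K), (hRmem _).2 ⟨⟨_, haF⟩, s * w, hsw, rfl⟩⟩, ?_⟩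
      apply Subtype.ext
      show ((a : K) * F) / ((s * w : A) : K) * (t : K) = m
      have hw0 := hne0 w hwP
      have e3 : ((s * w : A) : K) = (s : K) * ((t : K) * F) := rfl
      have hF0 : F ≠ 0 := by
        intro h
        apply hw0
        show (t : K) * F = 0
        rw [h, mul_zero]
      rw [e3, e]
      field_simp
    · rw [Ideal.submodule_span_eq, Ideal.span_singleton_le_iff_mem]
      exact htmax
  have hmne : maximalIdeal R ≠ ⊥ := by
    intro h
    rw [h, Ideal.mem_bot] at htmax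
    exact ht0 (congrArg Subtype.val htmax)
  obtain ⟨v, hv⟩ := local_val (R := R) (K := K) hprin hmne
  have hv' : ∀ z, v z ≤ 1 ↔ z ∈ R := by
    intro z
    rw [hv]
    constructor
    · rintro ⟨r, rfl⟩
      exact r.2
    · intro hz
      exact ⟨⟨z, hz⟩, rfl⟩
  have hvA : ∀ a : A, v (a : K) ≤ 1 := fun a => (hv' _).2 (hAR a)
  refine ⟨v, fun a ha => hvA ⟨a, ha⟩, ?_, fun z hz => ?_⟩
  · have h1 : 1 < v F := by
      rw [← not_le, hv', hRmem]
      rintro ⟨a, s, hs, e⟩
      apply hs
      rw [hmem, e, mul_div_cancel₀ _ (hne0 s hs)]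
      exact a.2
    refine h1.trans_le ?_
    rw [hF, map_mul]
    calc v (g : K) * v f ≤ 1 * v f := mul_le_mul_left (hvA g) _
      _ = v f := one_mul _
  · obtain ⟨a, s, hs, e⟩ := (hRmem z).1 ((hv' z).1 hz)
    refine ⟨a, a.2, s, s.2, ?_, e⟩
    have h1 := hvA s
    have h2 : v (s : K)⁻¹ ≤ 1 := (hv' _).2 (hinvR s hs)
    refine le_antisymm h1 ?_
    have h3 : v (s : K) * v (s : K)⁻¹ = 1 := by
      rw [← map_mul, mul_inv_cancel₀ (hne0 s hs), map_one]
    calc (1 : ℤᵐ⁰) = v (s : K) * v (s : K)⁻¹ := h3.symm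
      _ ≤ v (s : K) * 1 := mul_le_mul_right h2 _
      _ = v (s : K) := mul_one _

end Pf72953.Up
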