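import Mathlib
import Pool.Agent.Lib.Pf72953u.Chart

/-!
Almost integral elements are stable under derivations (Seidenberg).
-/

set_option autoImplicit false

namespace Pf72953.Up

theorem iter_add {κ K : Type*} [Field κ] [Field K] [Algebra κ K] (D : Derivation κ K K)
    (n : ℕ) (a b : K) : D^[n] (a + b) = D^[n] a + D^[n] b := by
  induction n generalizing a b with
  | zero => rfl
  | succ n ih => rw [Function.iterate_succ_apply, map_add, ih]; rfl

theorem iter_natCast_mul {κ K : Type*} [Field κ] [Field K] [Algebra κ K] (D : Derivation κ K K)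
    (n i : ℕ) (a : K) : D^[n] ((i : K) * a) = (i : K) * D^[n] a := by
  induction n generalizing a with
  | zero => rfl
  | succ n ih =>
    rw [Function.iterate_succ_apply, Derivation.leibniz, Derivation.map_natCast, smul_zero,
      add_zero, smul_eq_mul, ih]
    rfl

theorem sum_choose_der {κ K : Type*} [Field κ] [Field K] [Algebra κ K] (D : Derivation κ K K)
    (z : K) (n : ℕ) : ∀ (m : ℕ) (d : K), n ≤ m →
      ∑ i ∈ Finset.range (m + 1), (-1) ^ (m - i) * (m.choose i : K) *
        (D^[n] (d * z ^ i)) * z ^ (m - i) = if n = m then (m.factorial : K) * d * D z ^ m else 0 := by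
  induction n with
  | zero =>
    intro m d _
    have h1 : ∑ i ∈ Finset.range (m + 1), (-1) ^ (m - i) * (m.choose i : K) *
        (D^[0] (d * z ^ i)) * z ^ (m - i) = d * (z + -z) ^ m := by
      rw [add_pow, Finset.mul_sum]
      refine Finset.sum_congr rfl fun i _ => ?_
      rw [Function.iterate_zero, id, neg_pow z (m - i)]
      ring
    rw [h1, add_neg_cancel]
    rcases Nat.eq_zero_or_pos m with rfl | hm
    · simp
    · rw [zero_pow hm.ne', mul_zero, if_neg hm.ne]
  | succ n ih =>
    intro m d hnm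
    obtain ⟨m, rfl⟩ : ∃ m', m = m' + 1 := ⟨m - 1, by omega⟩
    have h1 : ∀ i : ℕ, D^[n + 1] (d * z ^ i) = D^[n] (D d * z ^ i) +
        (i : K) * D^[n] (d * D z * z ^ (i - 1)) := by
      intro i
      rw [Function.iterate_succ_apply, Derivation.leibniz, Derivation.leibniz_pow, add_comm,
        iter_add, ← iter_natCast_mul]
      congr 2
      · rw [smul_eq_mul, mul_comm]
      · rw [smul_eq_mul, smul_eq_mul, nsmul_eq_mul]
        ring
    have h2 : ∑ i ∈ Finset.range (m + 1 + 1), (-1) ^ (m + 1 - i) * ((m + 1).choose i : K) *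
        (D^[n + 1] (d * z ^ i)) * z ^ (m + 1 - i) =
        ∑ i ∈ Finset.range (m + 1 + 1), (-1) ^ (m + 1 - i) * ((m + 1).choose i : K) *
        (D^[n] (D d * z ^ i)) * z ^ (m + 1 - i) +
        ∑ i ∈ Finset.range (m + 1 + 1), (-1) ^ (m + 1 - i) * ((m + 1).choose i : K) *
        ((i : K) * D^[n] (d * D z * z ^ (i - 1))) * z ^ (m + 1 - i) := by
      rw [← Finset.sum_add_distrib]
      refine Finset.sum_congr rfl fun i _ => ?_
      rw [h1]
      ring
    rw [h2, ih (m + 1) (D d) (by omega), if_neg (by omega), zero_add, Finset.sum_range_succ']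
    simp only [Nat.cast_zero, zero_mul, mul_zero, add_zero]
    have h3 : ∀ i ∈ Finset.range (m + 1), (-1) ^ (m + 1 - (i + 1)) *
        ((m + 1).choose (i + 1) : K) * (((i + 1 : ℕ) : K) *
          D^[n] (d * D z * z ^ (i + 1 - 1))) * z ^ (m + 1 - (i + 1)) =
        ((m + 1 : ℕ) : K) * ((-1) ^ (m - i) * (m.choose i : K) *
          D^[n] (d * D z * z ^ i) * z ^ (m - i)) := by
      intro i _
      have h4 : ((m + 1).choose (i + 1) : K) * ((i + 1 : ℕ) : K) =
          ((m + 1 : ℕ) : K) * (m.choose i : K) := by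
        have h5 := congrArg (Nat.cast (R := K)) (Nat.add_one_mul_choose_eq m i).symm
        rw [Nat.cast_mul, Nat.cast_mul] at h5
        exact h5
      rw [Nat.add_sub_add_right, Nat.add_sub_cancel]
      linear_combination ((-1) ^ (m - i) * D^[n] (d * D z * z ^ i) * z ^ (m - i)) * h4
    rw [Finset.sum_congr rfl h3, ← Finset.mul_sum, ih m (d * D z) (by omega)]
    by_cases h : n = m
    · rw [if_pos h, if_pos (by omega), Nat.factorial_succ]
      push_cast
      ring
    · rw [if_neg h, if_neg (by omega), mul_zero]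

/-- almost integral elements are stable under derivations -/
theorem almost_der {κ K : Type*} [Field κ] [CharZero κ] [Field K] [Algebra κ K]
    (A : Subalgebra κ K) (D : Derivation κ K K) (hD : ∀ f ∈ A, D f ∈ A) {z d : K}
    (h : ∀ n : ℕ, d * z ^ n ∈ A) (n : ℕ) : d ^ 2 * D z ^ n ∈ A := by
  have hDn : ∀ (m : ℕ) (f : K), f ∈ A → D^[m] f ∈ A := by
    intro m
    induction m with
    | zero => intro f hf; exact hf
    | succ m ih => intro f hf; rw [Function.iterate_succ_apply]; exact ih _ (hD _ hf)
  have h1 := sum_choose_der D z n n d le_rfl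
  rw [if_pos rfl] at h1
  have h2 : (n.factorial : K) * (d ^ 2 * D z ^ n) ∈ A := by
    have h3 : (n.factorial : K) * (d ^ 2 * D z ^ n) = d * ((n.factorial : K) * d * D z ^ n) := by
      ring
    rw [h3, ← h1, Finset.mul_sum]
    refine A.sum_mem fun i _ => ?_
    have h4 : d * ((-1) ^ (n - i) * (n.choose i : K) * (D^[n] (d * z ^ i)) * z ^ (n - i)) =
        ((-1) ^ (n - i) * (n.choose i : K)) * (D^[n] (d * z ^ i)) * (d * z ^ (n - i)) := by ring
    rw [h4]
    refine A.mul_mem (A.mul_mem (A.mul_mem ?_ (natCast_mem A _)) (hDn n _ (h i))) (h _)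
    exact A.pow_mem (A.neg_mem A.one_mem) _
  have h5 : (d ^ 2 * D z ^ n) = algebraMap κ K ((n.factorial : κ)⁻¹) *
      ((n.factorial : K) * (d ^ 2 * D z ^ n)) := by
    have h6 : (n.factorial : κ) ≠ 0 := by exact_mod_cast Nat.factorial_ne_zero n
    have h7 : algebraMap κ K ((n.factorial : κ)⁻¹) * (n.factorial : K) = 1 := by
      rw [← map_natCast (algebraMap κ K), ← map_mul, inv_mul_cancel₀ h6, map_one]
    rw [← mul_assoc, h7, one_mul]
  rw [h5]
  exact A.mul_mem (A.algebraMap_mem _) h2

end Pf72953.Up
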