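import Mathlib
import Pool.Agent.Lib.Pf72953m.Wron
import Pool.Agent.Lib.Pf72953u.Chart
import Pool.Agent.Lib.Pf72953u.Sei
import Pool.Agent.Lib.Pf72953u.Cond
import Pool.Agent.Lib.Pf72953u.Dvr
import Pool.Agent.Lib.Pf72953u.Divis

/-!
Smooth charts are normal (Seidenberg), and Hartogs' theorem for smooth charts.
-/

set_option autoImplicit false
set_option linter.style.haveILetI false

open scoped WithZero

namespace Pf72953.Up

section

variable {κ K ι : Type*} [Field κ] [CharZero κ] [Field K] [Algebra κ K] {x : ι → K}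
  {hx : IsTranscendenceBasis κ x} {A : Subalgebra κ K}

theorem Chart.isNoetherian (h : Chart hx A) : IsNoetherianRing A := by
  haveI : Algebra.FiniteType κ A := A.fg_iff_finiteType.mp h.fg
  exact Algebra.FiniteType.isNoetherianRing κ A

/-- an almost integral element is integral -/
theorem isIntegral_of_almost [IsNoetherianRing A] {z d : K} (hd0 : d ≠ 0)
    (h : ∀ n : ℕ, d * z ^ n ∈ A) : IsIntegral A z := by
  have hdA : d ∈ A := by simpa using h 0
  -- the `A`-module generated by the powers of `z` is contained in the cyclic module `d⁻¹ A`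
  let N : Submodule A K := Submodule.span A {d⁻¹}
  haveI : IsNoetherian A N := isNoetherian_of_fg_of_noetherian N (Submodule.fg_span_singleton _)
  have hmem : ∀ n : ℕ, z ^ n ∈ N := by
    intro n
    refine Submodule.mem_span_singleton.mpr ⟨⟨d * z ^ n, h n⟩, ?_⟩
    rw [Algebra.smul_def]
    change (d * z ^ n) * d⁻¹ = z ^ n
    field_simp
  have hle : Subalgebra.toSubmodule (Algebra.adjoin A {z}) ≤ N := by
    rw [Algebra.adjoin_singleton_eq_range_aeval]
    rintro _ ⟨p, rfl⟩
    change Polynomial.aeval z p ∈ N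
    rw [Polynomial.aeval_eq_sum_range]
    exact N.sum_mem fun i _ => N.smul_mem _ (hmem i)
  have hfg : (Subalgebra.toSubmodule (Algebra.adjoin A {z})).FG :=
    (isNoetherian_submodule.mp ‹IsNoetherian A N›) _ hle
  exact IsIntegral.of_mem_of_fg (Algebra.adjoin A {z}) hfg z (Algebra.self_mem_adjoin_singleton A z)

/-- smooth charts are normal -/
theorem Chart.mem_of_isIntegral [Fintype ι] (h : Chart hx A) {z : K} (hz : IsIntegral A z) :
    z ∈ A := by
  classical
  haveI := h.isNoetherian
  obtain ⟨c, hcA, hc0, hc⟩ := exists_conductor A h.fg h.frac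
  -- derivatives of integral elements are integral
  have hder : ∀ a (y : K), IsIntegral A y → IsIntegral A (pd hx a y) := by
    intro a y hy
    refine isIntegral_of_almost (d := c ^ 2) (pow_ne_zero 2 hc0) fun n => ?_
    exact almost_der A (pd hx a) (h.der a) (fun n => hc _ (hy.pow n)) n
  -- the conductor
  let P : Ideal A :=
    { carrier := {b | ∀ y : K, IsIntegral A y → (b : K) * y ∈ A}
      add_mem' := fun {b b'} hb hb' y hy => by
        change ((b : K) + (b' : K)) * y ∈ A
        rw [add_mul]; exact A.add_mem (hb y hy) (hb' y hy)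
      zero_mem' := fun y _ => by
        change (0 : K) * y ∈ A
        rw [zero_mul]; exact A.zero_mem
      smul_mem' := fun b b' hb' y hy => by
        change ((b : K) * (b' : K)) * y ∈ A
        rw [mul_assoc]; exact A.mul_mem b.2 (hb' y hy) }
  by_contra hzA
  have hPtop : P ≠ ⊤ := by
    intro htop
    have h1 : (1 : A) ∈ P := by rw [htop]; trivial
    have h2 := h1 z hz
    rw [OneMemClass.coe_one, one_mul] at h2
    exact hzA h2
  have hstab : ∀ a (f : K) (hf : f ∈ A), (⟨f, hf⟩ : A) ∈ P →
      (⟨pd hx a f, h.der a f hf⟩ : A) ∈ P := by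
    intro a f hf hfP y hy
    change pd hx a f * y ∈ A
    have h1 : pd hx a f * y = pd hx a (f * y) - f * pd hx a y := by
      rw [Derivation.leibniz, smul_eq_mul, smul_eq_mul]
      ring
    rw [h1]
    exact A.sub_mem (h.der a _ (hfP y hy)) (hfP _ (hder a y hy))
  have hword : ∀ (α : List ι), (⟨Mov.word hx α c, Mov.word_mem h.der α hcA⟩ : A) ∈ P := by
    intro α
    induction α with
    | nil => exact fun y hy => hc y hy
    | cons a α ih => exact hstab a _ _ ih
  obtain ⟨α, hα⟩ := Mov.exists_word_notMem hx h.mem h.der P hPtop hcA hc0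
  exact hα (hword α)

/-- Hartogs' theorem for smooth charts -/
theorem Chart.hartogs [Fintype ι] [DecidableEq ι] (h : Chart hx A) {f : K} (hf : f ∉ A) :
    ∃ v : Valuation K ℤᵐ⁰, IsDivisorial κ K v ∧ RegBasis κ v x ∧ (∀ a ∈ A, v a ≤ 1) ∧
      1 < v f := by
  haveI := h.isNoetherian
  obtain ⟨v, hA, hvf, hloc⟩ := exists_dvr A h.frac (fun z hz => h.mem_of_isIntegral hz) hf
  have hnt : ∃ a : K, a ≠ 0 ∧ v a ≠ 1 := by
    refine ⟨f, ?_, hvf.ne'⟩
    rintro rfl
    simp at hvf
  obtain ⟨h1, h2⟩ := h.isDivisorial hA hnt hloc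
  exact ⟨v, h1, h2, hA, hvf⟩

end

end Pf72953.Up
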