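import Mathlib
import Pool.Agent.Lib.Pf72953.DBasis
import Pool.Agent.Lib.Pf72953m.Over
import Pool.Agent.Lib.Pf72953u.Chart

/-!
MODULE Pf72953u.Lin: base change of partial derivatives, and linear disjointness of algebraically independent
fields over an algebraically closed field.

PROOF.  `pd_base`: copy the proof of `pd_algebraMap` (DBasis.lean) with `KaehlerDifferential.map k κ Y K`:
`D κ K (algebraMap Y K f) = KaehlerDifferential.map k κ Y K (D k Y f) = ∑ i, algebraMap Y K (pd hx i f) • D κ K (algebraMap Y K (x i))`
by `D_eq_sum hx f`, and read off the coordinate `a` in `dBasis hxK`.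
`linearIndependent_const`: suppose the family `b g` is not linearly independent over `Y` in `K`; take a relation
`∑_{g ∈ s} p_g b_g = 0` with all `p_g ≠ 0`, `s` nonempty of minimal cardinality, divide to have `p_{g₀} = 1`.
Apply `pd hxK a` (it is `κ`-linear, so kills `b_g`, and `pd hxK a (p_g) = (pd hx a p_g)` in `Y` by `pd_base`):
`∑ pd hx a (p_g) b_g = 0`, without the term `g₀`; by minimality `pd hx a p_g = 0` for all `a`, `g`.  An element
of `Y` all of whose partial derivatives vanish is algebraic over `k`: `D k Y p = 0` by `D_eq_sum`, and in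
characteristic zero the kernel of `D` is algebraic over `k` (if `p` were transcendental, extend it to a
transcendence basis `z`, then `pd hz _ p = 1`; `pd` is a coordinate of `D`), hence lies in `k` as `k` is algebraically closed
(`IsAlgClosed.algebraMap_bijective_of_isIntegral` or `IsAlgClosed` lemmas for `IsAlgebraic` elements).  So all
`p_g = algebraMap k Y c_g`, and `∑ c_g b_g = 0` in `κ` (the map `κ → K` is injective) with `c_{g₀} = 1`,
contradicting the independence of `b` over `k`.
-/

set_option autoImplicit false

namespace Pf72953.Up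

variable {k κ Y K ι : Type*} [Field k] [CharZero k] [Field κ] [CharZero κ] [Field Y] [Field K]
  [Algebra k κ] [Algebra k Y] [Algebra k K] [Algebra κ K] [Algebra Y K] [IsScalarTower k κ K]
  [IsScalarTower k Y K] [Fintype ι]

theorem pd_base {x : ι → Y} (hx : IsTranscendenceBasis k x)
    (hxK : IsTranscendenceBasis κ (fun i => algebraMap Y K (x i))) (a : ι) (f : Y) :
    pd hxK a (algebraMap Y K f) = algebraMap Y K (pd hx a f) := by
  classical
  have hcomm : SMulCommClass κ Y K := ⟨fun c y z => by
    rw [Algebra.smul_def, Algebra.smul_def, Algebra.smul_def, Algebra.smul_def, mul_left_comm]⟩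
  have h1 : KaehlerDifferential.D κ K (algebraMap Y K f) =
      ∑ i, algebraMap Y K (pd hx i f) • KaehlerDifferential.D κ K (algebraMap Y K (x i)) := by
    rw [← KaehlerDifferential.map_D k κ Y K, D_eq_sum hx f, map_sum]
    refine Finset.sum_congr rfl fun i _ => ?_
    rw [LinearMap.map_smul, KaehlerDifferential.map_D, algebraMap_smul]
  rw [pd_apply, h1, map_sum, Finsupp.finsetSum_apply]
  have h2 : ∀ i, KaehlerDifferential.D κ K (algebraMap Y K (x i)) = dBasis hxK i :=
    fun i => (dBasis_apply hxK i).symm
  simp only [h2, map_smul, Module.Basis.repr_self, Finsupp.smul_apply,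
    Finsupp.single_apply, smul_eq_mul, mul_ite, mul_one, mul_zero]
  simp

omit [CharZero κ] [Algebra k κ] [Algebra κ K] [IsScalarTower k κ K] [Field κ] [Field K]
  [Algebra k K] [Algebra Y K] [IsScalarTower k Y K] in
/-- constants of all partial derivatives -/
theorem Lin_const [IsAlgClosed k] {x : ι → Y} (hx : IsTranscendenceBasis k x) (p : Y)
    (hp : ∀ a, pd hx a p = 0) : ∃ c : k, algebraMap k Y c = p := by
  have hD : KaehlerDifferential.D k Y p = 0 := by
    rw [D_eq_sum hx p]
    exact Finset.sum_eq_zero fun i _ => by rw [hp i, zero_smul]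
  have halg : IsAlgebraic k p := by
    by_contra htr
    have h1 : AlgebraicIndepOn k id ({p} : Set Y) := by
      have : Unique ({p} : Set Y) := Set.uniqueSingleton p
      refine algebraicIndependent_unique_type_iff.2 ?_
      have h0 : ((default : ({p} : Set Y)) : Y) = p := (default : ({p} : Set Y)).2
      change Transcendental k ((default : ({p} : Set Y)) : Y)
      rw [h0]
      exact htr
    obtain ⟨t, ht, hbt⟩ := exists_isTranscendenceBasis_superset h1
    have h2 := dBasis_apply hbt ⟨p, ht rfl⟩
    exact (dBasis hbt).ne_zero ⟨p, ht rfl⟩ (h2.trans hD)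
  have hint : IsIntegral k p := halg.isIntegral
  have hdeg := IsAlgClosed.degree_eq_one_of_irreducible k (minpoly.irreducible hint)
  obtain ⟨c, hc⟩ := minpoly.mem_range_of_degree_eq_one k p hdeg
  exact ⟨c, hc⟩

theorem linearIndependent_const [IsAlgClosed k] {x : ι → Y} (hx : IsTranscendenceBasis k x)
    (hxK : IsTranscendenceBasis κ (fun i => algebraMap Y K (x i))) {γ : Type*} {b : γ → κ}
    (hb : LinearIndependent k b) : LinearIndependent Y (fun g => algebraMap κ K (b g)) := by
  classical
  rw [linearIndependent_iff']
  suffices H : ∀ (n : ℕ) (s : Finset γ), s.card ≤ n → ∀ g : γ → Y,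
      ∑ i ∈ s, g i • algebraMap κ K (b i) = 0 → ∀ i ∈ s, g i = 0 from
    fun s g hg => H s.card s le_rfl g hg
  intro n
  induction n with
  | zero =>
    intro s hs g _ i hi
    have := Finset.card_pos.2 ⟨i, hi⟩
    omega
  | succ n ih =>
    intro s hs g hg i₀ hi₀
    by_contra hne
    -- normalise
    set p : γ → Y := fun i => (g i₀)⁻¹ * g i with hpdef
    have hp0 : p i₀ = 1 := inv_mul_cancel₀ hne
    have hrel : ∑ i ∈ s, p i • algebraMap κ K (b i) = 0 := by
      have : ∑ i ∈ s, p i • algebraMap κ K (b i) =
          (g i₀)⁻¹ • ∑ i ∈ s, g i • algebraMap κ K (b i) := by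
        rw [Finset.smul_sum]
        exact Finset.sum_congr rfl fun i _ => by rw [hpdef, mul_smul]
      rw [this, hg, smul_zero]
    have hder : ∀ a, ∀ i ∈ s, pd hx a (p i) = 0 := by
      intro a
      have h1 : ∑ i ∈ s, (pd hx a (p i)) • algebraMap κ K (b i) = 0 := by
        have h2 := congrArg (pd hxK a) hrel
        rw [map_zero, map_sum] at h2
        rw [← h2]
        refine Finset.sum_congr rfl fun i _ => ?_
        have h6 : pd hxK a (algebraMap Y K (p i) * algebraMap κ K (b i)) =
            algebraMap Y K (pd hx a (p i)) * algebraMap κ K (b i) := by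
          rw [Derivation.leibniz, Derivation.map_algebraMap, smul_zero, zero_add,
            pd_base hx hxK, smul_eq_mul, mul_comm]
        rw [Algebra.smul_def, Algebra.smul_def, h6]
      have h3 : pd hx a (p i₀) = 0 := by rw [hp0, Derivation.map_one_eq_zero]
      have h4 : ∑ i ∈ s.erase i₀, (pd hx a (p i)) • algebraMap κ K (b i) = 0 := by
        rw [← Finset.add_sum_erase s _ hi₀, h3, zero_smul, zero_add] at h1
        exact h1
      have h5 := ih (s.erase i₀) (by rw [Finset.card_erase_of_mem hi₀]; omega) _ h4
      intro i hi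
      by_cases hii : i = i₀
      · rw [hii, h3]
      · exact h5 i (Finset.mem_erase.2 ⟨hii, hi⟩)
    have hconst : ∀ i : γ, ∃ c : k, i ∈ s → algebraMap k Y c = p i := by
      intro i
      by_cases hi : i ∈ s
      · obtain ⟨c, hc⟩ := Lin_const hx (p i) (fun a => hder a i hi)
        exact ⟨c, fun _ => hc⟩
      · exact ⟨0, fun h => absurd h hi⟩
    choose c hc using hconst
    have hk : ∑ i ∈ s, c i • b i = 0 := by
      apply (algebraMap κ K).injective
      rw [map_zero, map_sum, ← hrel]
      refine Finset.sum_congr rfl fun i hi => ?_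
      rw [← hc i hi, algebraMap_smul, Algebra.smul_def, Algebra.smul_def, map_mul,
        ← IsScalarTower.algebraMap_apply]
    have h6 := linearIndependent_iff'.1 hb s c hk i₀ hi₀
    have h7 := hc i₀ hi₀
    rw [h6, map_zero, hp0] at h7
    exact zero_ne_one h7

end Pf72953.Up
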