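import Mathlib
import Pool.Agent.Lib.Pf72953u.Lin

/-!
MODULE Pf72953u.BaseCh: base change of charts and descent of global functions.

PROOF.  `bc κ K A` is the `κ`-subalgebra of `K` generated by the image of `A`.
`mem_bc`: the set of all `∑_g b_g p_g`, `p : β →₀ A`, is a `κ`-subalgebra containing the image of `A`
(`Algebra.adjoin_induction`, or: the adjoin is the `κ`-span of the image of the submonoid `A`,
`Algebra.adjoin_eq_span_of_subset` / `Submodule.span_induction`; an element `c ∈ κ` is
`c = ∑ (b.repr c g) • b g`, so `c * f = ∑ b_g * (algebraMap k Y (b.repr c g) * f)`).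
`Chart.baseChange`: generators of `A` over `k` generate `bc` over `κ` (`fg`); `mem` is clear; `der`: by
`Algebra.adjoin_induction` from `pd_base`, `pd` kills `κ`, Leibniz; `frac`: the set of all `g / h`,
`g, h ∈ bc`, `h ≠ 0` is a subfield (intermediate field) containing `κ` and the range of `Y` (elements of `Y` are
fractions of elements of `A` by `h.frac`), so it is everything by `hgen`
(`IntermediateField.adjoin_induction`).
`descent`: choose a chart `i₀`, apply `mem_bc` to get `P = (∑ b_g f_g) u_{i₀}`, `f_g ∈ A i₀`, put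
`p_g = f_g u_{i₀}`.  For another chart `i`: `P = (∑ b_g f'_g) u_i`, and `∑ b_g (f_g u_{i₀}) = ∑ b_g (f'_g u_i)`
gives `f_g u_{i₀} = f'_g u_i` for all `g` by the linear independence `hlin`.
-/

set_option autoImplicit false

namespace Pf72953.Up

variable {k κ Y K ι : Type*} [Field k] [CharZero k] [Field κ] [CharZero κ] [Field Y] [Field K]
  [Algebra k κ] [Algebra k Y] [Algebra k K] [Algebra κ K] [Algebra Y K] [IsScalarTower k κ K]
  [IsScalarTower k Y K] [Fintype ι]

/-- the base change of a chart -/
def bc (κ K : Type*) {k Y : Type*} [Field k] [Field κ] [Field Y] [Field K] [Algebra k Y]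
    [Algebra κ K] [Algebra Y K] (A : Subalgebra k Y) : Subalgebra κ K :=
  Algebra.adjoin κ (algebraMap Y K '' A)

theorem mem_bc {β : Type*} (b : Module.Basis β k κ) {A : Subalgebra k Y} {z : K}
    (hz : z ∈ bc κ K A) : ∃ p : β →₀ Y, (∀ g, p g ∈ A) ∧
      z = p.sum fun g y => algebraMap κ K (b g) * algebraMap Y K y := by
  classical
  -- the zero element
  have h0 : ∃ p : β →₀ Y, (∀ g, p g ∈ A) ∧
      (0 : K) = p.sum fun g y => algebraMap κ K (b g) * algebraMap Y K y :=
    ⟨0, fun g => A.zero_mem, by rw [Finsupp.sum_zero_index]⟩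
  -- sums
  have hadd : ∀ z w : K, (∃ p : β →₀ Y, (∀ g, p g ∈ A) ∧
      z = p.sum fun g y => algebraMap κ K (b g) * algebraMap Y K y) →
      (∃ p : β →₀ Y, (∀ g, p g ∈ A) ∧
      w = p.sum fun g y => algebraMap κ K (b g) * algebraMap Y K y) →
      ∃ p : β →₀ Y, (∀ g, p g ∈ A) ∧
      z + w = p.sum fun g y => algebraMap κ K (b g) * algebraMap Y K y := by
    rintro z w ⟨p, hp, rfl⟩ ⟨q, hq, rfl⟩
    refine ⟨p + q, fun g => A.add_mem (hp g) (hq g), ?_⟩
    rw [Finsupp.sum_add_index']
    · intro g
      rw [map_zero, mul_zero]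
    · intro g y y'
      rw [map_add, mul_add]
  -- elementary tensors
  have hel : ∀ (c : κ) (y : Y), y ∈ A → ∃ p : β →₀ Y, (∀ g, p g ∈ A) ∧
      algebraMap κ K c * algebraMap Y K y =
        p.sum fun g y => algebraMap κ K (b g) * algebraMap Y K y := by
    intro c y hy
    refine ⟨(b.repr c).mapRange (fun a => algebraMap k Y a * y) (by rw [map_zero, zero_mul]),
      fun g => ?_, ?_⟩
    · rw [Finsupp.mapRange_apply]
      exact A.mul_mem (A.algebraMap_mem _) hy
    · rw [Finsupp.sum_mapRange_index (by intro g; rw [map_zero, mul_zero])]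
      have h1 := b.linearCombination_repr c
      rw [Finsupp.linearCombination_apply, Finsupp.sum] at h1
      conv_lhs => rw [← h1]
      rw [map_sum, Finset.sum_mul, Finsupp.sum]
      refine Finset.sum_congr rfl fun g _ => ?_
      rw [Algebra.smul_def, map_mul, map_mul, ← IsScalarTower.algebraMap_apply k κ K,
        ← IsScalarTower.algebraMap_apply k Y K]
      ring
  have hsum : ∀ {γ : Type _} (s : Finset γ) (f : γ → K), (∀ i ∈ s, ∃ p : β →₀ Y, (∀ g, p g ∈ A) ∧
      f i = p.sum fun g y => algebraMap κ K (b g) * algebraMap Y K y) →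
      ∃ p : β →₀ Y, (∀ g, p g ∈ A) ∧
      ∑ i ∈ s, f i = p.sum fun g y => algebraMap κ K (b g) * algebraMap Y K y := by
    intro γ s f hf
    exact Finset.sum_induction f (fun z => ∃ p : β →₀ Y, (∀ g, p g ∈ A) ∧
      z = p.sum fun g y => algebraMap κ K (b g) * algebraMap Y K y) hadd h0 hf
  induction hz using Algebra.adjoin_induction with
  | mem x hx =>
    obtain ⟨y, hy, rfl⟩ := hx
    have := hel 1 y hy
    rwa [map_one, one_mul] at this
  | algebraMap r =>
    have := hel r 1 A.one_mem
    rwa [map_one, mul_one] at this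
  | add x y _ _ hx hy => exact hadd x y hx hy
  | mul x y _ _ hx hy =>
    obtain ⟨p, hp, rfl⟩ := hx
    obtain ⟨q, hq, rfl⟩ := hy
    rw [Finsupp.sum, Finsupp.sum, Finset.sum_mul]
    refine hsum _ _ fun i _ => ?_
    rw [Finset.mul_sum]
    refine hsum _ _ fun j _ => ?_
    have h1 := hel (b i * b j) (p i * q j) (A.mul_mem (hp i) (hq j))
    rw [map_mul, map_mul] at h1
    have h2 : algebraMap κ K (b i) * algebraMap Y K (p i) *
        (algebraMap κ K (b j) * algebraMap Y K (q j)) =
        algebraMap κ K (b i) * algebraMap κ K (b j) *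
          (algebraMap Y K (p i) * algebraMap Y K (q j)) := by ring
    rw [h2]
    exact h1

theorem Chart.baseChange {x : ι → Y} {hx : IsTranscendenceBasis k x}
    (hxK : IsTranscendenceBasis κ (fun i => algebraMap Y K (x i))) {A : Subalgebra k Y}
    (h : Chart hx A)
    (hgen : ∀ z : K, z ∈ IntermediateField.adjoin κ (Set.range (algebraMap Y K))) :
    Chart hxK (bc κ K A) := by
  classical
  have hbc : ∀ y ∈ A, algebraMap Y K y ∈ bc κ K A := fun y hy =>
    Algebra.subset_adjoin ⟨y, hy, rfl⟩
  refine ⟨?_, ?_, fun i => hbc _ (h.mem i), ?_⟩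
  · obtain ⟨S, hS⟩ := h.fg
    refine ⟨S.image (algebraMap Y K), le_antisymm ?_ ?_⟩
    · refine Algebra.adjoin_le ?_
      intro z hz
      rw [Finset.mem_coe, Finset.mem_image] at hz
      obtain ⟨y, hy, rfl⟩ := hz
      exact hbc y (hS ▸ Algebra.subset_adjoin hy)
    · refine Algebra.adjoin_le ?_
      rintro z ⟨y, hy, rfl⟩
      have hy' : y ∈ Algebra.adjoin k (S : Set Y) := hS ▸ hy
      clear hy
      induction hy' using Algebra.adjoin_induction with
      | mem y hy => exact Algebra.subset_adjoin (Finset.mem_coe.2 (Finset.mem_image_of_mem _ hy))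
      | algebraMap r =>
        rw [← IsScalarTower.algebraMap_apply k Y K, IsScalarTower.algebraMap_apply k κ K]
        exact Subalgebra.algebraMap_mem _ _
      | add y y' _ _ hy hy' =>
        rw [map_add]
        exact Subalgebra.add_mem _ hy hy'
      | mul y y' _ _ hy hy' =>
        rw [map_mul]
        exact Subalgebra.mul_mem _ hy hy'
  · intro f
    have hf := hgen f
    induction hf using IntermediateField.adjoin_induction with
    | mem x hx =>
      obtain ⟨y, rfl⟩ := hx
      obtain ⟨g, hg, h', hh, hne, rfl⟩ := h.frac y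
      refine ⟨_, hbc g hg, _, hbc h' hh, ?_, by rw [map_div₀]⟩
      rw [Ne, map_eq_zero]
      exact hne
    | algebraMap r =>
      exact ⟨algebraMap κ K r, Subalgebra.algebraMap_mem _ _, 1, Subalgebra.one_mem _,
        one_ne_zero, by rw [div_one]⟩
    | add x y _ _ hx hy =>
      obtain ⟨a, ha, c, hc, hc0, rfl⟩ := hx
      obtain ⟨a', ha', c', hc', hc0', rfl⟩ := hy
      exact ⟨a * c' + c * a', Subalgebra.add_mem _ (Subalgebra.mul_mem _ ha hc')
        (Subalgebra.mul_mem _ hc ha'), c * c', Subalgebra.mul_mem _ hc hc',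
        mul_ne_zero hc0 hc0', by rw [div_add_div _ _ hc0 hc0']⟩
    | inv x _ hx =>
      obtain ⟨a, ha, c, hc, hc0, rfl⟩ := hx
      by_cases ha0 : a = 0
      · exact ⟨0, Subalgebra.zero_mem _, 1, Subalgebra.one_mem _, one_ne_zero, by
          rw [ha0, zero_div, inv_zero, zero_div]⟩
      · exact ⟨c, hc, a, ha, ha0, by rw [inv_div]⟩
    | mul x y _ _ hx hy =>
      obtain ⟨a, ha, c, hc, hc0, rfl⟩ := hx
      obtain ⟨a', ha', c', hc', hc0', rfl⟩ := hy
      exact ⟨a * a', Subalgebra.mul_mem _ ha ha', c * c', Subalgebra.mul_mem _ hc hc',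
        mul_ne_zero hc0 hc0', by rw [div_mul_div_comm]⟩
  · intro a f hf
    induction hf using Algebra.adjoin_induction with
    | mem z hz =>
      obtain ⟨y, hy, rfl⟩ := hz
      rw [pd_base hx hxK]
      exact hbc _ (h.der a y hy)
    | algebraMap r =>
      rw [Derivation.map_algebraMap]
      exact Subalgebra.zero_mem _
    | add y y' _ _ hy hy' =>
      rw [map_add]
      exact Subalgebra.add_mem _ hy hy'
    | mul y y' hym hym' hy hy' =>
      rw [Derivation.leibniz, smul_eq_mul, smul_eq_mul]
      exact Subalgebra.add_mem _ (Subalgebra.mul_mem _ hym hy') (Subalgebra.mul_mem _ hym' hy)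

theorem descent {β I : Type*} [Nonempty I] (b : Module.Basis β k κ)
    (hlin : LinearIndependent Y (fun g => algebraMap κ K (b g))) (A : I → Subalgebra k Y)
    (u : I → Y) {P : K} (hP : ∀ i, ∃ f ∈ bc κ K (A i), P = f * algebraMap Y K (u i)) :
    ∃ p : β →₀ Y, (P = p.sum fun g y => algebraMap κ K (b g) * algebraMap Y K y) ∧
      ∀ i g, ∃ f ∈ A i, p g = f * u i := by
  classical
  have key : ∀ i, ∃ p : β →₀ Y, (P = p.sum fun g y => algebraMap κ K (b g) * algebraMap Y K y) ∧
      ∀ g, ∃ f ∈ A i, p g = f * u i := by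
    intro i
    obtain ⟨f, hf, hPf⟩ := hP i
    obtain ⟨q, hq, rfl⟩ := mem_bc b hf
    refine ⟨q.mapRange (fun y => y * u i) (zero_mul _), ?_, fun g => ⟨q g, hq g, by
      rw [Finsupp.mapRange_apply]⟩⟩
    rw [Finsupp.sum_mapRange_index (by intro g; rw [map_zero, mul_zero]), hPf, Finsupp.sum,
      Finsupp.sum, Finset.sum_mul]
    refine Finset.sum_congr rfl fun g _ => ?_
    rw [map_mul, mul_assoc]
  have huniq : ∀ p q : β →₀ Y,
      (p.sum fun g y => algebraMap κ K (b g) * algebraMap Y K y) =
      (q.sum fun g y => algebraMap κ K (b g) * algebraMap Y K y) → p = q := by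
    intro p q hpq
    have h1 : ∀ r : β →₀ Y, (r.sum fun g y => algebraMap κ K (b g) * algebraMap Y K y) =
        Finsupp.linearCombination Y (fun g => algebraMap κ K (b g)) r := by
      intro r
      rw [Finsupp.linearCombination_apply]
      refine Finsupp.sum_congr fun g _ => ?_
      rw [Algebra.smul_def, mul_comm]
    rw [h1, h1] at hpq
    exact hlin hpq
  obtain ⟨i₀⟩ := ‹Nonempty I›
  obtain ⟨p, hp, _⟩ := key i₀
  refine ⟨p, hp, fun i g => ?_⟩
  obtain ⟨q, hq, hq'⟩ := key i
  rw [huniq p q (hp ▸ hq)]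
  exact hq' g

end Pf72953.Up
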