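import Mathlib
import Pool.Agent.Lib.Pf72953.Estimate

/-!
MODULE Pf72953u.LocEst: the poles of a regular form along a ramified divisor.

PROOF.  `v := w.comap (algebraMap K L)`.  `v` is nontrivial (`L/K` is algebraic: if `v` were trivial on `K` then every
element of `L` algebraic over `K` would have value one, cf. `val_eq_one_of_isIntegral` in Estimate.lean), so
`IsDivisorial κ K v` (`IsDivisorial.restrict`).  Let `n = card ι = dimension κ K = dimension κ L`
(`card_eq_of_isTranscendenceBasis` for `hx.tb` and its image, `IsTranscendenceBasis.algebraMap_comp`).  Take adapted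
systems `(c, t)` for `v` and `(c', t')` for `w` (`IsDivisorial.exists_adapted`), with `t`, `t'` uniformizers.
Then `c` is adapted for `w` as well (`Adapted.map`), so both `c` (in `L`) and `c'` are logarithmic bases for `w`
(`Adapted.logBasis`), `∏ w (c i) = w t`, `∏ w (c' i) = w t'` (`Adapted.prod`), and `LogBasis.vol_eq` gives
  `w (jac_{c'} x) * w t' = w (jac_c x) * w t`,  `w (jac_c x) = v (jac_c x)` (`jac_algebraMap`).
As `x` is a regular basis for `v` and `v (c i) ≤ 1`, `v (jac_x c) ≤ 1` (`RegBasis.jac_le`), and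
`jac_c x * jac_x c = 1` (`jac_mul_jac`), so `v (jac_c x) ≥ 1`.  Hence `w t ≤ w (jac_{c'} x) * w t'`.
`z ∈ WReg` with the regular basis `c'` (`Adapted.regBasis`): `w z * w (jac_{c'} x) ^ m ≤ 1`.  So
`w z * w t ^ m ≤ w z * (w (jac_{c'} x) * w t') ^ m ≤ w t' ^ m`.   (*)
(a) if `w` is unramified, `hun t'` gives `a : K` with `w a < 1`, `w t' ≤ w a ≤ w t`, so `w t' ≤ w t` and
(*) gives `w z ≤ 1` (cancel `w t ^ m ≠ 0`).
(b) if `w s < 1`, `s : K`, then `w s ≤ w t`, so `w z * w s ^ m ≤ w z * w t ^ m ≤ w t' ^ m ≤ 1`.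
-/

set_option autoImplicit false
set_option linter.style.haveILetI false

open scoped WithZero

namespace Pf72953.Up

variable {κ K L ι : Type*} [Field κ] [CharZero κ] [Field K] [Field L] [Algebra κ K] [Algebra κ L]
  [Algebra K L] [IsScalarTower κ K L] [FiniteDimensional K L] [Algebra.EssFiniteType κ K]
  [Algebra.EssFiniteType κ L] [Fintype ι] [DecidableEq ι]

/-- the common estimate: `w z * w t ^ m ≤ w t' ^ m` with uniformizers `t` of `K` and `t'` of `L` -/
theorem local_key {w : Valuation L ℤᵐ⁰} (hw : IsDivisorial κ L w) {x : ι → K}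
    (hx : RegBasis κ (w.comap (algebraMap K L)) x) {m : ℕ} {z : L}
    (hz : z ∈ WReg κ (fun i => algebraMap K L (x i)) m) :
    ∃ (t : K) (t' : L), IsUnif (w.comap (algebraMap K L)) t ∧ IsUnif w t' ∧
      w z * w (algebraMap K L t) ^ m ≤ w t' ^ m := by
  classical
  have hnt : ∃ a : K, a ≠ 0 ∧ w (algebraMap K L a) ≠ 1 := by
    by_contra hcon
    push Not at hcon
    obtain ⟨b, hb0, hb⟩ := hw.nontrivial
    exact hb (val_eq_one_of_isIntegral (B := K) hcon hb0 (Algebra.IsIntegral.isIntegral b))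
  have hv : IsDivisorial κ K (w.comap (algebraMap K L)) := hw.restrict hnt
  have hxL : IsTranscendenceBasis κ (fun i => algebraMap K L (x i)) := hx.tb.algebraMap_comp
  have hcardK : Fintype.card ι = dimension κ K := card_eq_of_isTranscendenceBasis hx.tb
  have hcardL : Fintype.card ι = dimension κ L := card_eq_of_isTranscendenceBasis hxL
  obtain ⟨c, t, ht, hc⟩ := hv.exists_adapted hcardK
  obtain ⟨c', t', ht', hc'⟩ := hw.exists_adapted hcardL
  refine ⟨t, t', ht, ht', ?_⟩
  have hcL : Adapted κ w (fun i => algebraMap K L (c i)) (algebraMap K L t) := hc.map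
  have hl := hcL.logBasis hcardL
  have hl' := hc'.logBasis hcardL
  have hvol := hl'.vol_eq hl (fun i => algebraMap K L (x i))
  rw [hc'.prod, hcL.prod] at hvol
  have hlK : LogBasis κ (w.comap (algebraMap K L)) c := hc.logBasis hcardK
  rw [jac_algebraMap hlK.tb hl.tb x] at hvol
  have h1 : w (algebraMap K L (jac hx.tb c)) ≤ 1 := hx.jac_le c hc.le_one
  have h2 : w (algebraMap K L (jac hlK.tb x)) * w (algebraMap K L (jac hx.tb c)) = 1 := by
    rw [← map_mul, ← map_mul, jac_mul_jac, map_one, map_one]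
  have h3 : 1 ≤ w (algebraMap K L (jac hlK.tb x)) := by
    calc (1 : ℤᵐ⁰) = w (algebraMap K L (jac hlK.tb x)) * w (algebraMap K L (jac hx.tb c)) :=
          h2.symm
      _ ≤ w (algebraMap K L (jac hlK.tb x)) * 1 := by gcongr
      _ = _ := mul_one _
  have h4 : w (algebraMap K L t) ≤ w (jac hl'.tb (fun i => algebraMap K L (x i))) * w t' := by
    rw [hvol]
    calc w (algebraMap K L t) = 1 * w (algebraMap K L t) := (one_mul _).symm
      _ ≤ _ := by gcongr
  have h5 := hz w hw c' (hc'.regBasis hcardL ht')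
  calc w z * w (algebraMap K L t) ^ m
      ≤ w z * (w (jac hl'.tb (fun i => algebraMap K L (x i))) * w t') ^ m := by gcongr
    _ = (w z * w (jac hl'.tb (fun i => algebraMap K L (x i))) ^ m) * w t' ^ m := by
        rw [mul_pow, mul_assoc]
    _ ≤ 1 * w t' ^ m := by gcongr
    _ = w t' ^ m := one_mul _

theorem local_unramified {w : Valuation L ℤᵐ⁰} (hw : IsDivisorial κ L w) {x : ι → K}
    (hx : RegBasis κ (w.comap (algebraMap K L)) x)
    (hun : ∀ a : L, w a < 1 → ∃ t : K, w (algebraMap K L t) < 1 ∧ w a ≤ w (algebraMap K L t))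
    {m : ℕ} {z : L} (hz : z ∈ WReg κ (fun i => algebraMap K L (x i)) m) : w z ≤ 1 := by
  obtain ⟨t, t', ht, ht', h⟩ := local_key hw hx hz
  obtain ⟨a, ha1, ha2⟩ := hun t' ht'.lt_one
  have h1 : w (algebraMap K L a) ≤ w (algebraMap K L t) := ht.le a ha1
  have h2 : w t' ≤ w (algebraMap K L t) := ha2.trans h1
  have hpos : 0 < w (algebraMap K L t) ^ m := by
    refine pow_pos (zero_lt_iff.mpr ((Valuation.ne_zero_iff w).mpr ?_)) m
    simpa using ht.ne_zero
  have h3 : w z * w (algebraMap K L t) ^ m ≤ 1 * w (algebraMap K L t) ^ m := by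
    rw [one_mul]
    exact h.trans (pow_le_pow_left' h2 m)
  exact le_of_mul_le_mul_right h3 hpos

theorem local_ramified {w : Valuation L ℤᵐ⁰} (hw : IsDivisorial κ L w) {x : ι → K}
    (hx : RegBasis κ (w.comap (algebraMap K L)) x) {s : K} (hs : w (algebraMap K L s) < 1)
    {m : ℕ} {z : L} (hz : z ∈ WReg κ (fun i => algebraMap K L (x i)) m) :
    w z * w (algebraMap K L s) ^ m ≤ 1 := by
  obtain ⟨t, t', ht, ht', h⟩ := local_key hw hx hz
  have h1 : w (algebraMap K L s) ≤ w (algebraMap K L t) := ht.le s hs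
  calc w z * w (algebraMap K L s) ^ m ≤ w z * w (algebraMap K L t) ^ m := by gcongr
    _ ≤ w t' ^ m := h
    _ ≤ 1 := pow_le_one' ht'.lt_one.le m

end Pf72953.Up
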