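import Mathlib
import Pool.Agent.Lib.Pf72953.Norm
import Pool.Agent.Lib.Pf72953.Extend

/-!
MODULE Pf72953u.NormEst: norms of elements which are integral at all valuations above `v`.

PROOF.  As in Norm.lean: let `Ω/K` be finite Galois with `L ⊆ Ω`.  `exists_extension` gives a valuation `W` of `Ω`
with `W a ≤ 1 ↔ v a ≤ 1` for `a : K`.  `algebraMap K Ω (norm_K z) = ∏_σ σ z` (`Algebra.norm_eq_prod_automorphisms`).
For `σ : Ω ≃ₐ[K] Ω` the valuation `w_σ := (W.comap σ).comap (algebraMap L Ω)` of `L` satisfies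
`w_σ (algebraMap K L a) = W (σ (algebraMap K Ω a)) = W (algebraMap K Ω a)`, so `h w_σ` gives
`W (σ (algebraMap L Ω z)) ≤ 1`.  Hence `W (norm) ≤ 1` and `v (norm) ≤ 1`.
-/

set_option autoImplicit false
set_option linter.style.haveILetI false

open scoped WithZero

namespace Pf72953.Up

theorem norm_le_one {K L Ω : Type*} [Field K] [Field L] [Field Ω] [Algebra K L] [Algebra K Ω]
    [Algebra L Ω] [IsScalarTower K L Ω] [FiniteDimensional K Ω] [IsGalois K Ω]
    {v : Valuation K ℤᵐ⁰} (hv : ∃ a : K, a ≠ 0 ∧ v a ≠ 1) {z : L}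
    (h : ∀ w : Valuation L ℤᵐ⁰, (∀ a : K, w (algebraMap K L a) ≤ 1 ↔ v a ≤ 1) → w z ≤ 1) :
    v (Algebra.norm K (algebraMap L Ω z)) ≤ 1 := by
  classical
  obtain ⟨W, hW⟩ := exists_extension (L := Ω) v hv
  rw [← hW, Algebra.norm_eq_prod_automorphisms, map_prod]
  refine Finset.prod_le_one' fun σ _ => ?_
  have h1 := h ((W.comap (σ : Ω →+* Ω)).comap (algebraMap L Ω)) (fun a => by
    have h2 : ((W.comap (σ : Ω →+* Ω)).comap (algebraMap L Ω)) (algebraMap K L a) =
        W (algebraMap K Ω a) := by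
      change W (σ (algebraMap L Ω (algebraMap K L a))) = W (algebraMap K Ω a)
      rw [← IsScalarTower.algebraMap_apply K L Ω, σ.commutes]
    rw [h2]
    exact hW a)
  exact h1

end Pf72953.Up
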