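import Mathlib
import Pool.Agent.Lib.Pf72953.Core
import Pool.Agent.Lib.Pf72953m.Over

/-!
MODULE Pf72953u.Pull: pull-back of regular forms, change of coordinates, algebraic change of the base field.

PROOF.  `WReg.pull`: let `w` be a divisorial valuation of `L/B`, `c` a regular basis of `w`.  `v := w.comap` is nontrivial
(`L/E` algebraic, cf. `val_eq_one_of_isIntegral`), divisorial (`IsDivisorial.restrict`).  Take an adapted system and
regular basis `c'` of `v` (`IsDivisorial.exists_adapted`, `Adapted.regBasis`); its image in `L` is a transcendence basis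
(`IsTranscendenceBasis.algebraMap_comp`); `jac_c (z) = jac_c (c') * jac_{c'} (z)` (`jac_chain`, `jac_algebraMap`) and
`w (jac_c c') ≤ 1` (`RegBasis.jac_le`), and `v f * v (jac_{c'} z) ^ m ≤ 1`.
`WReg.change`: `jac_c z' * jac_{z'} z = jac_c z` (`jac_chain`).
`WReg.base`: `κ/B` algebraic, so a derivation over `B` vanishes on the image of `κ` (`der_eq_zero_of_isAlgebraic` in
Pf72953m/Over.lean), transcendence bases of `L/κ` and `L/B` agree, `pd` agrees, `dimension B L = dimension κ L`;
a divisorial valuation of `L/κ` is one of `L/B` (`const`: `B → κ → L`; `resid`: the same elements, map polynomials by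
`MvPolynomial.map (algebraMap B κ)`, which is injective); a regular basis over `κ` is one over `B`.
-/

set_option autoImplicit false
set_option linter.style.haveILetI false

open scoped WithZero

namespace Pf72953.Up

theorem WReg.pull {B E L ι : Type*} [Field B] [CharZero B] [Field E] [Field L] [Algebra B E]
    [Algebra B L] [Algebra E L] [IsScalarTower B E L] [FiniteDimensional E L]
    [Algebra.EssFiniteType B E] [Algebra.EssFiniteType B L] [Fintype ι] [DecidableEq ι]
    {z : ι → E} (hz : IsTranscendenceBasis B z) {m : ℕ} {f : E} (hf : f ∈ WReg B z m) :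
    algebraMap E L f ∈ WReg B (fun i => algebraMap E L (z i)) m := by
  intro w hw c hc
  have hnt : ∃ a : E, a ≠ 0 ∧ w (algebraMap E L a) ≠ 1 := by
    by_contra hcon
    push Not at hcon
    obtain ⟨a, ha0, ha⟩ := hw.nontrivial
    exact ha (val_eq_one_of_isIntegral (B := E) hcon ha0
      (Algebra.IsIntegral.isIntegral (R := E) a))
  have hv : IsDivisorial B E (w.comap (algebraMap E L)) := hw.restrict hnt
  have hι := card_eq_of_isTranscendenceBasis hz
  obtain ⟨c', t, ht, hc'⟩ := hv.exists_adapted hι
  have hreg := hc'.regBasis hι ht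
  have htb : IsTranscendenceBasis B (fun i => algebraMap E L (c' i)) := hreg.tb.algebraMap_comp
  have h1 := hf _ hv c' hreg
  rw [Valuation.comap_apply, Valuation.comap_apply] at h1
  have h2 : w (jac hc.tb (fun i => algebraMap E L (c' i))) ≤ 1 :=
    hc.jac_le _ fun i => hreg.le_one i
  rw [jac_chain htb hc.tb, jac_algebraMap hreg.tb htb, map_mul, mul_pow, mul_left_comm]
  exact mul_le_one' (pow_le_one' h2 m) h1

theorem WReg.change {B L ι : Type*} [Field B] [CharZero B] [Field L] [Algebra B L] [Fintype ι]
    [DecidableEq ι] {z z' : ι → L} (hz : IsTranscendenceBasis B z)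
    (hz' : IsTranscendenceBasis B z') {m : ℕ} {f : L} (hf : f ∈ WReg B z m) :
    f * jac hz' z ^ m ∈ WReg B z' m := by
  intro w hw c hc
  have h1 := hf w hw c hc
  rw [jac_chain hz' hc.tb, map_mul, mul_pow] at h1
  rw [map_mul, map_pow, mul_assoc, mul_comm (w (jac hz' z) ^ m)]
  exact h1

theorem WReg.base {B κ L ι : Type*} [Field B] [CharZero B] [Field κ] [CharZero κ] [Field L]
    [Algebra B κ] [Algebra B L] [Algebra κ L] [IsScalarTower B κ L] [Algebra.IsAlgebraic B κ]
    [Fintype ι] [DecidableEq ι] {z : ι → L} (hz : IsTranscendenceBasis B z) {m : ℕ} {f : L}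
    (hf : f ∈ WReg B z m) : f ∈ WReg κ z m := by
  intro w hw c hc
  haveI : FinTrdeg B L := FinTrdeg.of_isTranscendenceBasis hz
  have hι := card_eq_of_isTranscendenceBasis hz
  have hι' := card_eq_of_isTranscendenceBasis hc.tb
  have hdim : dimension B L = dimension κ L := hι.symm.trans hι'
  have hinj : Function.Injective (algebraMap B κ) := (algebraMap B κ).injective
  -- the divisorial valuation over `B`
  have hwB : IsDivisorial B L w := by
    refine ⟨fun b hb => ?_, hw.nontrivial, ?_⟩
    · rw [IsScalarTower.algebraMap_apply B κ L]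
      exact hw.const _ (by simpa using hb)
    · rw [hdim]
      obtain ⟨x, hx⟩ := hw.resid
      refine ⟨x, fun p hp => ?_⟩
      have h1 : MvPolynomial.map (algebraMap B κ) p ≠ 0 := by
        intro h0
        apply hp
        exact MvPolynomial.map_injective _ hinj (by rw [h0, map_zero])
      have h2 := hx _ h1
      rwa [MvPolynomial.aeval_map_algebraMap] at h2
  -- the regular basis over `B`
  have htb : IsTranscendenceBasis B c :=
    isTranscendenceBasis_of_card hι (hc.tb.1.restrictScalars hinj)
  have hpd : ∀ (i : ι) (a : L), pd htb i a = pd hc.tb i a := by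
    intro i a
    have h1 := der_eq_sum htb ((pd hc.tb i).restrictScalars B) a
    simp only [Derivation.restrictScalars_apply, pd_self] at h1
    rw [h1]
    simp
  have hcB : RegBasis B w c := ⟨htb, hc.le_one, fun i a ha => by
    rw [hpd]; exact hc.der i a ha⟩
  have h1 := hf w hwB c hcB
  have h2 : jac hcB.tb z = jac hc.tb z := by
    rw [jac_eq_det, jac_eq_det]
    congr 1
    ext i j
    exact hpd i (z j)
  rwa [h2] at h1

end Pf72953.Up
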