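import Mathlib
import Pool.Agent.Lib.Pf72953m.Fin
import Pool.Agent.Lib.Pf72953u.Normal
import Pool.Agent.Lib.Pf72953u.BaseCh
import Pool.Agent.Lib.Pf72953u.LocEst
import Pool.Agent.Lib.Pf72953u.NormEst
import Pool.Agent.Lib.Pf72953u.Pull

/-!
The upper bound for the Kodaira dimension of a ramified cover of a constant variety.
-/

set_option autoImplicit false
set_option linter.style.haveILetI false
set_option linter.unusedSectionVars false

open scoped WithZero
open Pf72953 Pf72953.Mov

namespace Pf72953.Up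

section

variable {k κ Y K ι : Type*} [Field k] [CharZero k] [Field κ] [CharZero κ] [Field Y] [Field K]
  [Algebra k κ] [Algebra k Y] [Algebra k K] [Algebra κ K] [Algebra Y K] [IsScalarTower k κ K]
  [IsScalarTower k Y K] [Fintype ι]

theorem jac_base [DecidableEq ι] {x : ι → Y} (hx : IsTranscendenceBasis k x)
    (hxK : IsTranscendenceBasis κ (fun i => algebraMap Y K (x i))) (a : ι → Y) :
    jac hxK (fun i => algebraMap Y K (a i)) = algebraMap Y K (jac hx a) := by
  rw [jac_eq_det, jac_eq_det, RingHom.map_det]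
  congr 1
  ext i j
  simp only [Matrix.of_apply, RingHom.mapMatrix_apply, Matrix.map_apply]
  exact pd_base hx hxK i (a j)

theorem chart_of_model (M : SmoothModel k Y) (i : M.I) : Chart (M.tb i) (M.A i) :=
  ⟨M.fg i, M.frac i, M.mem i, fun a f hf => M.pd_mem i a f hf⟩

end

section main

variable {k κ Y K L Ω J : Type*} [Field k] [CharZero k] [IsAlgClosed k] [Field κ] [CharZero κ]
  [Field Y] [Field K] [Field L] [Field Ω] [Algebra k κ] [Algebra k Y] [Algebra k K] [Algebra k L]
  [Algebra κ K] [Algebra κ L] [Algebra κ Ω] [Algebra Y K] [Algebra Y L] [Algebra K L] [Algebra K Ω]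
  [Algebra L Ω] [IsScalarTower k κ K] [IsScalarTower k Y K] [IsScalarTower k κ L]
  [IsScalarTower k Y L] [IsScalarTower κ K L] [IsScalarTower Y K L] [IsScalarTower k K L]
  [IsScalarTower K L Ω] [IsScalarTower κ K Ω] [FiniteDimensional K L] [FiniteDimensional K Ω]
  [IsGalois K Ω] [Algebra.EssFiniteType k Y] [Algebra.EssFiniteType κ K]
  [Algebra.EssFiniteType κ L] [Fintype J]

/-- the data of the upper bound -/
structure Setup (M : SmoothModel k Y) (S : J → LineBundle M) (κ K L : Type*) [Field κ] [Field K]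
    [Field L] [Algebra Y K] [Algebra κ K] [Algebra K L] [Algebra κ L] [Algebra Y L]
    (s : J → K) : Prop where
  sec : ∀ i j, ∃ f ∈ bc κ K (M.A i), s j = f * algebraMap Y K ((S j).gen i)
  ne : ∀ j, s j ≠ 0
  tb : ∀ y : Fin (dimension k Y) → Y, IsTranscendenceBasis k y →
    IsTranscendenceBasis κ (fun i => algebraMap Y K (y i))
  gen : ∀ z : K, z ∈ IntermediateField.adjoin κ (Set.range (algebraMap Y K))
  unr : ∀ w : Valuation L ℤᵐ⁰, IsDivisorial κ L w →
    ∀ i, (∀ f ∈ M.A i, w (algebraMap Y L f) ≤ 1) →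
    (∀ j, w (algebraMap K L (s j)) = w (algebraMap Y L ((S j).gen i))) →
    ∀ z : L, w z < 1 → ∃ t : K, w (algebraMap K L t) < 1 ∧ w z ≤ w (algebraMap K L t)

/-- the norm of a regular form, multiplied by the equations of the branch divisors -/
noncomputable def nf (Ω : Type*) {K L J : Type*} [Field K] [Field L] [Field Ω] [Algebra K Ω]
    [Algebra L Ω] [Fintype J] (s : J → K) (m : ℕ) (g : L) : K :=
  Algebra.norm K (algebraMap L Ω g) * ∏ j, s j ^ (m * Module.finrank K Ω)

theorem nf_mem {M : SmoothModel k Y} {S : J → LineBundle M} {s : J → K}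
    (hS : Setup M S κ K L s) {y : Fin (dimension k Y) → Y} (hy : IsTranscendenceBasis k y) {m : ℕ}
    {g : L} (hg : g ∈ WReg κ (fun i => algebraMap Y L (y i)) m) (i : M.I) :
    ∃ f ∈ bc κ K (M.A i), nf Ω s m g = f * algebraMap Y K
      ((∏ j, (S j).gen i ^ (m * Module.finrank K Ω)) *
        (jac (M.tb i) y ^ (m * Module.finrank K Ω))⁻¹) := by
  classical
  set d := Module.finrank K Ω with hd
  set u : Y := (∏ j, (S j).gen i ^ (m * d)) * (jac (M.tb i) y ^ (m * d))⁻¹ with hu
  have hjac : jac (M.tb i) y ≠ 0 := jac_ne_zero hy (M.tb i)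
  have hgen : ∏ j, (S j).gen i ^ (m * d) ≠ 0 :=
    Finset.prod_ne_zero_iff.mpr fun j _ => pow_ne_zero _ ((S j).ne i)
  have hu0 : u ≠ 0 := mul_ne_zero hgen (inv_ne_zero (pow_ne_zero _ hjac))
  have huK : algebraMap Y K u ≠ 0 := by simpa using hu0
  refine ⟨nf Ω s m g / algebraMap Y K u, ?_, by rw [div_mul_cancel₀ _ huK]⟩
  by_contra hF
  have hxK := hS.tb _ (M.tb i)
  obtain ⟨v, hv, hvx, hvA, hvF⟩ := ((chart_of_model M i).baseChange hxK hS.gen).hartogs hF
  refine absurd hvF (not_lt.mpr ?_)
  -- the local equations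
  choose σ hσ hσs using fun j => hS.sec i j
  -- the function whose norm we take
  set G : L := g * algebraMap Y L (jac (M.tb i) y) ^ m * ∏ j, algebraMap K L (σ j) ^ m with hG
  have hnorm : nf Ω s m g / algebraMap Y K u = Algebra.norm K (algebraMap L Ω G) := by
    have h1 : algebraMap L Ω G = algebraMap L Ω g *
        algebraMap K Ω (algebraMap Y K (jac (M.tb i) y) ^ m * ∏ j, σ j ^ m) := by
      rw [hG, IsScalarTower.algebraMap_apply K L Ω]
      simp only [map_mul, map_pow, map_prod]
      rw [← IsScalarTower.algebraMap_apply Y K L, mul_assoc]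
    have h1' : ∀ a : K, Algebra.norm K (algebraMap L Ω g * algebraMap K Ω a) =
        Algebra.norm K (algebraMap L Ω g) * a ^ d := fun a => by
      rw [map_mul, Algebra.norm_algebraMap]
    rw [h1, h1', nf, div_eq_iff huK, hu]
    have h2 : ∀ j, s j ^ (m * d) = σ j ^ (m * d) * algebraMap Y K ((S j).gen i) ^ (m * d) := by
      intro j
      rw [← mul_pow, ← hσs j]
    rw [Finset.prod_congr rfl fun j _ => h2 j, Finset.prod_mul_distrib]
    simp only [map_mul, map_inv₀, map_pow, map_prod, mul_pow, ← Finset.prod_pow, ← pow_mul]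
    have h3 : algebraMap Y K (jac (M.tb i) y) ≠ 0 := by simpa using hjac
    field_simp
  rw [hnorm]
  refine norm_le_one hv.nontrivial fun w hw => ?_
  -- transfer to the equivalent valuation
  set v' := w.comap (algebraMap K L) with hv'
  have hequiv : ∀ a : K, v' a ≤ 1 ↔ v a ≤ 1 := hw
  have hequiv1 : ∀ a : K, v' a = 1 ↔ v a = 1 := by
    have := (Valuation.isEquiv_iff_val_le_one (v := v') (v' := v)).mpr (fun {a} => hequiv a)
    intro a
    exact (Valuation.isEquiv_iff_val_eq_one.mp this)
  have hv'div : IsDivisorial κ K v' := by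
    refine ⟨fun c hc => (hequiv1 _).mpr (hv.const c hc), ?_, ?_⟩
    · obtain ⟨a, ha0, ha⟩ := hv.nontrivial
      exact ⟨a, ha0, fun h => ha ((hequiv1 a).mp h)⟩
    · obtain ⟨ξ, hξ⟩ := hv.resid
      exact ⟨ξ, fun p hp => (hequiv1 _).mpr (hξ p hp)⟩
  have hv'x : RegBasis κ v' (fun a => algebraMap Y K (M.x i a)) :=
    ⟨hvx.tb, fun a => (hequiv _).mpr (hvx.le_one a),
      fun a z hz => (hequiv _).mpr (hvx.der a z ((hequiv z).mp hz))⟩
  have hv'A : ∀ a ∈ bc κ K (M.A i), v' a ≤ 1 := fun a ha => (hequiv a).mpr (hvA a ha)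
  have hyL : IsTranscendenceBasis κ (fun a => algebraMap Y L (y a)) := by
    have h1 := (hS.tb y hy).algebraMap_comp (A := L)
    refine (iff_of_eq (congrArg _ ?_)).mp h1
    funext a
    exact (IsScalarTower.algebraMap_apply Y K L (y a)).symm
  have hxL : IsTranscendenceBasis κ (fun a => algebraMap Y L (M.x i a)) := by
    have h1 := hxK.algebraMap_comp (A := L)
    refine (iff_of_eq (congrArg _ ?_)).mp h1
    funext a
    exact (IsScalarTower.algebraMap_apply Y K L (M.x i a)).symm
  have hdim : dimension κ L = dimension κ K := by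
    have h1 := card_eq_of_isTranscendenceBasis hxK
    have h2 := card_eq_of_isTranscendenceBasis hxL
    rw [← h1, ← h2]
  have hwdiv : IsDivisorial κ L w := IsDivisorial.of_comap hdim hv'div
  -- the form in the coordinates of the chart
  have hz : g * algebraMap Y L (jac (M.tb i) y) ^ m ∈
      WReg κ (fun a => algebraMap K L (algebraMap Y K (M.x i a))) m := by
    have h1 := WReg.change hyL hxL hg
    rw [jac_base (M.tb i) hxL y] at h1
    simpa only [← IsScalarTower.algebraMap_apply Y K L] using h1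
  have hσle : ∀ j, w (algebraMap K L (σ j)) ≤ 1 := fun j => hv'A _ (hσ j)
  rw [hG, map_mul, map_prod]
  by_cases hcase : ∀ j, w (algebraMap K L (σ j)) = 1
  · -- unramified case
    have h1 : w (g * algebraMap Y L (jac (M.tb i) y) ^ m) ≤ 1 := by
      refine local_unramified hwdiv hv'x ?_ hz
      refine hS.unr w hwdiv i (fun f hf => ?_) (fun j => ?_)
      · rw [IsScalarTower.algebraMap_apply Y K L]
        exact hv'A _ (Algebra.subset_adjoin ⟨f, hf, rfl⟩)
      · rw [hσs j, map_mul, map_mul, hcase j, one_mul, ← IsScalarTower.algebraMap_apply Y K L]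
    refine mul_le_one' h1 (Finset.prod_le_one' fun j _ => ?_)
    rw [map_pow]
    exact pow_le_one' (hσle j) m
  · push Not at hcase
    obtain ⟨j₀, hj₀⟩ := hcase
    have h1 := local_ramified hwdiv hv'x (lt_of_le_of_ne (hσle j₀) hj₀) hz
    rw [← Finset.mul_prod_erase Finset.univ _ (Finset.mem_univ j₀), ← mul_assoc, map_pow]
    refine mul_le_one' h1 (Finset.prod_le_one' fun j _ => ?_)
    rw [map_pow]
    exact pow_le_one' (hσle j) m

/-- `κ(F) ≤ κ(K + ∑ S_j)` in coordinates -/
theorem upper {M : SmoothModel k Y} {S : J → LineBundle M} {s : J → K}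
    (hS : Setup M S κ K L s) (Ω : Type*) [Field Ω] [Algebra κ Ω] [Algebra K Ω] [Algebra L Ω]
    [IsScalarTower K L Ω] [IsScalarTower κ K Ω] [FiniteDimensional K Ω] [IsGalois K Ω]
    [Nonempty M.I] {y : Fin (dimension k Y) → Y}
    (hy : IsTranscendenceBasis k y) {m c : ℕ} (hm : 1 ≤ m) {g₀ : L}
    (hg₀ : g₀ ∈ WReg κ (fun i => algebraMap Y L (y i)) m) (hne : g₀ ≠ 0) {f : Fin c → L}
    (hf : AlgebraicIndependent κ f)
    (hff : ∀ i, f i * g₀ ∈ WReg κ (fun i => algebraMap Y L (y i)) m) : LogKodairaGE M S c := by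
  classical
  set d := Module.finrank K Ω with hd
  have hd1 : 1 ≤ d := Module.finrank_pos
  let b : Module.Basis _ k κ := Module.Basis.ofVectorSpace k κ
  have hlin : LinearIndependent Y (fun g => algebraMap κ K (b g)) :=
    linearIndependent_const hy (hS.tb y hy) b.linearIndependent
  set u : M.I → Y := fun i => (∏ j, (S j).gen i ^ (m * d)) * (jac (M.tb i) y ^ (m * d))⁻¹ with hu
  -- the space of sections
  set V : Set Y := CoefSec M S y (m * d) (fun _ => m * d) with hV
  have hVu : ∀ p : Y, (∀ i, ∃ f ∈ M.A i, p = f * u i) → p ∈ V := by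
    intro p hp i
    obtain ⟨f, hf, h⟩ := hp i
    refine ⟨f, hf, ?_⟩
    have hjac : jac (M.tb i) y ≠ 0 := jac_ne_zero hy (M.tb i)
    rw [h, hu]
    field_simp
  have hexp : ∀ g ∈ WReg κ (fun i => algebraMap Y L (y i)) m, ∃ p : _ →₀ Y,
      (nf Ω s m g = p.sum fun g y => algebraMap κ K (b g) * algebraMap Y K y) ∧ ∀ g, p g ∈ V := by
    intro g hg
    obtain ⟨p, hp, hpu⟩ := descent b hlin M.A u (P := nf Ω s m g) (fun i => nf_mem hS hy hg i)
    exact ⟨p, hp, fun g => hVu _ fun i => hpu i g⟩
  -- the base section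
  have hnf0 : ∀ g : L, g ≠ 0 → nf Ω s m g ≠ 0 := by
    intro g hg
    refine mul_ne_zero ?_ (Finset.prod_ne_zero_iff.mpr fun j _ => pow_ne_zero _ (hS.ne j))
    rw [Algebra.norm_ne_zero_iff]
    simpa using hg
  obtain ⟨v₀, hv₀, hv₀ne⟩ : ∃ v₀ ∈ V, v₀ ≠ 0 := by
    obtain ⟨p, hp, hpV⟩ := hexp g₀ hg₀
    by_contra hcon
    push Not at hcon
    apply hnf0 g₀ hne
    rw [hp]
    refine Finset.sum_eq_zero fun g _ => ?_
    change algebraMap κ K (b g) * algebraMap Y K (p g) = 0
    rw [hcon _ (hpV g), map_zero, mul_zero]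
  -- the ratios of sections
  set T : Set Ω := {θ | ∃ p ∈ V, θ = algebraMap K Ω (algebraMap Y K (p / v₀))} with hT
  set F₀ := IntermediateField.adjoin κ T with hF₀
  have hmemF : ∀ g ∈ WReg κ (fun i => algebraMap Y L (y i)) m,
      algebraMap K Ω (nf Ω s m g / algebraMap Y K v₀) ∈ F₀ := by
    intro g hg
    obtain ⟨p, hp, hpV⟩ := hexp g hg
    rw [hp, Finsupp.sum, Finset.sum_div, map_sum]
    refine F₀.sum_mem fun q _ => ?_
    rw [mul_div_assoc, map_mul, ← IsScalarTower.algebraMap_apply κ K Ω, ← map_div₀]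
    exact F₀.mul_mem (F₀.algebraMap_mem _) (IntermediateField.subset_adjoin κ T ⟨_, hpV q, rfl⟩)
  have hratio : ∀ i, ∀ l : ℕ, algebraMap K Ω (Algebra.norm K
      (algebraMap L Ω (f i) + algebraMap κ Ω (l : κ))) ∈ F₀ := by
    intro i l
    have h1 : (f i + algebraMap κ L (l : κ)) * g₀ ∈ WReg κ (fun i => algebraMap Y L (y i)) m := by
      rw [add_mul]
      exact WReg.add (hff i) (WReg.smul hg₀ _)
    have h2 := F₀.div_mem (hmemF _ h1) (hmemF _ hg₀)
    have h3 : algebraMap K Ω (nf Ω s m ((f i + algebraMap κ L (l : κ)) * g₀) / algebraMap Y K v₀) /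
        algebraMap K Ω (nf Ω s m g₀ / algebraMap Y K v₀) =
        algebraMap K Ω (Algebra.norm K (algebraMap L Ω (f i) + algebraMap κ Ω (l : κ))) := by
      rw [← map_div₀]
      congr 1
      have h4 : nf Ω s m ((f i + algebraMap κ L (l : κ)) * g₀) =
          Algebra.norm K (algebraMap L Ω (f i) + algebraMap κ Ω (l : κ)) * nf Ω s m g₀ := by
        rw [nf, nf, map_mul, map_mul, map_add, map_natCast (algebraMap κ L),
          map_natCast (algebraMap L Ω), map_natCast (algebraMap κ Ω), mul_assoc]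
      have h5 := hnf0 g₀ hne
      have h6 : algebraMap Y K v₀ ≠ 0 := by simpa using hv₀ne
      rw [h4]
      field_simp
    rwa [h3] at h2
  have halg : ∀ i, IsAlgebraic (Algebra.adjoin κ T) (algebraMap L Ω (f i)) := by
    intro i
    rw [← IntermediateField.isAlgebraic_adjoin_iff]
    exact isAlgebraic_of_norm F₀.toSubalgebra _ (hratio i)
  have hfΩ : AlgebraicIndependent κ (fun i => algebraMap L Ω (f i)) := by
    haveI : IsScalarTower κ L Ω := IsScalarTower.of_algebraMap_eq fun a => by
      rw [IsScalarTower.algebraMap_apply κ K Ω, IsScalarTower.algebraMap_apply K L Ω,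
        ← IsScalarTower.algebraMap_apply κ K L]
    exact hf.map' (f := IsScalarTower.toAlgHom κ L Ω) (algebraMap L Ω).injective
  obtain ⟨ψ, hψ, hψT⟩ := exists_indep_in_set T _ hfΩ halg
  choose p hp hpψ using hψT
  have hp' : AlgebraicIndependent k (fun i => p i / v₀) := by
    letI : Algebra k Ω := ((algebraMap κ Ω).comp (algebraMap k κ)).toAlgebra
    haveI : IsScalarTower k κ Ω := IsScalarTower.of_algebraMap_eq fun _ => rfl
    letI : Algebra Y Ω := ((algebraMap K Ω).comp (algebraMap Y K)).toAlgebra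
    haveI : IsScalarTower k Y Ω := IsScalarTower.of_algebraMap_eq fun a => by
      change algebraMap κ Ω (algebraMap k κ a) = algebraMap K Ω (algebraMap Y K (algebraMap k Y a))
      rw [IsScalarTower.algebraMap_apply κ K Ω, ← IsScalarTower.algebraMap_apply k κ K,
        ← IsScalarTower.algebraMap_apply k Y K]
    have h1 : AlgebraicIndependent k ψ := hψ.restrictScalars (algebraMap k κ).injective
    have h2 : ψ = fun i => (IsScalarTower.toAlgHom k Y Ω) (p i / v₀) := funext hpψ
    rw [h2] at h1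
    exact AlgebraicIndependent.of_comp _ h1
  refine ⟨m * d, Nat.one_le_iff_ne_zero.mpr (Nat.mul_ne_zero (by omega) (by omega)),
    v₀ • pureForm k (fun _ => y), ?_, ?_, fun i => p i / v₀, hp', fun i => ?_⟩
  · rw [mem_pluriSections_iff hy, map_smul, coef_self, smul_eq_mul, mul_one]
    exact hv₀
  · intro h
    have := congrArg (coef hy (m * d)) h
    rw [map_smul, coef_self, smul_eq_mul, mul_one, map_zero] at this
    exact hv₀ne this
  · rw [mem_pluriSections_iff hy, map_smul, map_smul, coef_self, smul_eq_mul, smul_eq_mul,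
      mul_one, div_mul_cancel₀ _ hv₀ne]
    exact hp i

end main

end Pf72953.Up
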