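import Mathlib
import Pool.Agent.Lib.Pf72953.Reduction
import Pool.Agent.Lib.Pf72953u.Main

/-!
The upper bound for the Kodaira dimension of the generic fibre of a family of ramified covers of a
constant variety.
-/

set_option autoImplicit false
set_option linter.style.haveILetI false

open scoped WithZero
open IsLocalRing Algebra
open Pf72953 Pf72953.Mov

namespace Pf72953.Up

/-- a divisorial valuation of `L/κ` is a divisorial valuation of `L/k`, `k ⊆ κ` -/
theorem IsDivisorial.under {k κ L : Type*} [Field k] [Field κ] [Field L] [Algebra k κ]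
    [Algebra k L] [Algebra κ L] [IsScalarTower k κ L] [FinTrdeg k L] {w : Valuation L ℤᵐ⁰}
    (hw : IsDivisorial κ L w) : IsDivisorial k L w := by
  classical
  have hB : ∀ b : κ, algebraMap κ L b ∈ w.valuationSubring := by
    intro b
    rcases eq_or_ne b 0 with rfl | hb
    · simp
    · exact (hw.const b hb).le
  have htriv : ∀ c : k, c ≠ 0 → w (algebraMap k L c) = 1 := by
    intro c hc
    rw [IsScalarTower.algebraMap_apply k κ L]
    exact hw.const _ (by simpa using hc)
  have hk : ∀ c : k, algebraMap k L c ∈ w.valuationSubring := by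
    intro c
    rw [IsScalarTower.algebraMap_apply k κ L]
    exact hB _
  letI algB : Algebra κ w.valuationSubring :=
    ((algebraMap κ L).codRestrict w.valuationSubring hB).toAlgebra
  letI algk : Algebra k w.valuationSubring :=
    ((algebraMap k L).codRestrict w.valuationSubring hk).toAlgebra
  haveI : IsScalarTower κ w.valuationSubring L := IsScalarTower.of_algebraMap_eq fun _ => rfl
  haveI : IsScalarTower k w.valuationSubring L := IsScalarTower.of_algebraMap_eq fun _ => rfl
  haveI : IsScalarTower k κ w.valuationSubring := IsScalarTower.of_algebraMap_eq fun c =>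
    Subtype.ext (by
      change algebraMap k L c = algebraMap κ L (algebraMap k κ c)
      rw [← IsScalarTower.algebraMap_apply k κ L])
  haveI : IsScalarTower k κ (ResidueField w.valuationSubring) :=
    IsScalarTower.of_algebraMap_eq fun c => by
      rw [IsScalarTower.algebraMap_apply k w.valuationSubring (ResidueField w.valuationSubring),
        IsScalarTower.algebraMap_apply k κ w.valuationSubring]
      rfl
  obtain ⟨x, hx⟩ := hw.resid
  have hx' : ResIndep κ w x := hx
  have hmem : ∀ i, x i ∈ w.valuationSubring := fun i => (hx'.apply i).le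
  have hx'' := (resIndep_iff w (fun i => (⟨x i, hmem i⟩ : w.valuationSubring))).mp hx'
  have hL := natCast_le_trdeg_of_le_dimension hx''
  have hsum := lift_trdeg_add_eq k κ L
  have hsum' := lift_trdeg_add_eq k κ (ResidueField w.valuationSubring)
  have hfin : Algebra.trdeg k L < Cardinal.aleph0 := trdeg_lt_aleph0 k L
  obtain ⟨n, hn⟩ := Cardinal.lt_aleph0.mp hfin
  have hn' : dimension k L = n := by rw [dimension, hn, Cardinal.toNat_natCast]
  rw [hn, Cardinal.lift_natCast] at hsum
  have hfin2 := hsum.trans_lt (Cardinal.natCast_lt_aleph0 (n := n))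
  rw [Cardinal.add_lt_aleph0_iff, Cardinal.lift_lt_aleph0, Cardinal.lift_lt_aleph0] at hfin2
  obtain ⟨f, hf⟩ := Cardinal.lt_aleph0.mp hfin2.1
  obtain ⟨d, hd⟩ := Cardinal.lt_aleph0.mp hfin2.2
  have hd' : dimension κ L = d := by rw [dimension, hd, Cardinal.toNat_natCast]
  rw [hf, hd, Cardinal.lift_natCast, Cardinal.lift_natCast] at hsum
  have hfd : f + d = n := by exact_mod_cast hsum
  have hgoal : ((dimension k L - 1 : ℕ) : Cardinal) ≤
      Algebra.trdeg k (ResidueField w.valuationSubring) := by
    by_contra hlt
    rw [not_le] at hlt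
    obtain ⟨e, he⟩ := Cardinal.lt_aleph0.mp (hlt.trans Cardinal.natCast_lt_aleph0)
    rw [he] at hlt
    rw [he, hf, Cardinal.lift_natCast, Cardinal.lift_natCast] at hsum'
    have hlt' : e < dimension k L - 1 := by exact_mod_cast hlt
    have hfin3 := hsum'.trans_lt (Cardinal.natCast_lt_aleph0 (n := e))
    rw [Cardinal.add_lt_aleph0_iff, Cardinal.lift_lt_aleph0] at hfin3
    obtain ⟨q, hq⟩ := Cardinal.lt_aleph0.mp hfin3.2
    rw [hq] at hL hsum'
    rw [Cardinal.lift_natCast] at hsum'
    have h7 : f + q = e := by exact_mod_cast hsum'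
    have h8 : dimension κ L - 1 ≤ q := by exact_mod_cast hL
    omega
  obtain ⟨y, hy⟩ := exists_algebraicIndependent_of_le_trdeg hgoal
  choose z hz using fun i => residue_surjective (y i)
  have hz' : (fun i => residue w.valuationSubring (z i)) = y := funext hz
  exact ⟨htriv, hw.nontrivial, fun i => (z i : L), (resIndep_iff w z).mpr (by rw [hz']; exact hy)⟩

/-- `L` is unramified over `B(M)` outside the divisors `D_j`: at every divisorial valuation of `L/k` trivial
on `B`, centred on the chart `i` of `M` and not on any `D_j`, the valuation ring has a uniformizer in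
the compositum of `B` and `k(M)`. -/
def UnramifiedOutside (k : Type*) {B Y L J : Type*} [Field k] [Field B] [Field Y] [Field L]
    [Algebra k Y] [Algebra k L] [Algebra B L] [Algebra Y L] {M : SmoothModel k Y}
    (D : J → MovingDivisor M B L) : Prop :=
  ∀ w : Valuation L ℤᵐ⁰, IsDivisorial k L w → (∀ b : B, b ≠ 0 → w (algebraMap B L b) = 1) →
    ∀ i, (∀ f ∈ M.A i, w (algebraMap Y L f) ≤ 1) →
    (∀ j, w (D j).sec = w (algebraMap Y L ((D j).S.gen i))) →
    ∀ z : L, w z < 1 → ∃ t ∈ IntermediateField.adjoin k
      (Set.range (algebraMap B L) ∪ Set.range (algebraMap Y L)), w t < 1 ∧ w z ≤ w t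

section tb

variable {k κ Y K L ι : Type*} [Field k] [Field κ] [Field Y] [Field K] [Field L] [Algebra k κ]
  [Algebra k Y] [Algebra k L] [Algebra κ L] [Algebra Y L] [IsScalarTower k κ L]
  [IsScalarTower k Y L]

/-- a transcendence basis of `Y/k` is one of `L/κ` if the dimensions add up -/
theorem tb_over [FinTrdeg k L] [Fintype ι] (hdim : dimension k κ + dimension k Y = dimension k L)
    (halg : ∀ a : L, IsAlgebraic (Algebra.adjoin k
      (Set.range (algebraMap κ L) ∪ Set.range (algebraMap Y L))) a)
    {y : ι → Y} (hy : IsTranscendenceBasis k y) :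
    IsTranscendenceBasis κ (fun i => algebraMap Y L (y i)) := by
  set s : ι → L := fun i => algebraMap Y L (y i) with hs
  have h1 : ∀ a : L, IsAlgebraic (Algebra.adjoin k
      (Set.range (algebraMap κ L) ∪ Set.range s)) a := by
    intro a
    refine (halg a).adjoin_of_forall_isAlgebraic ?_
    rintro _ ⟨⟨b, rfl⟩ | ⟨b, rfl⟩, h⟩
    · exact absurd (Or.inl ⟨b, rfl⟩) h
    · exact isAlgebraic_transport hy (Set.range (algebraMap κ L) ∪ Set.range s)
        (fun i => Or.inr ⟨i, rfl⟩) b
  have h2 : ∀ a ∈ Algebra.adjoin k (Set.range (algebraMap κ L) ∪ Set.range s),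
      a ∈ Algebra.adjoin κ (Set.range s) := by
    intro a ha
    have h3 : Algebra.adjoin k (Set.range (algebraMap κ L) ∪ Set.range s) ≤
        (Algebra.adjoin κ (Set.range s)).restrictScalars k := by
      rw [Algebra.adjoin_le_iff]
      rintro b (⟨c, rfl⟩ | hb)
      · exact (Algebra.adjoin κ (Set.range s)).algebraMap_mem c
      · exact Algebra.subset_adjoin hb
    exact h3 ha
  haveI h3 : Algebra.IsAlgebraic (Algebra.adjoin κ (Set.range s)) L := by
    refine ⟨fun a => ?_⟩
    let φ : Algebra.adjoin k (Set.range (algebraMap κ L) ∪ Set.range s) →+*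
        Algebra.adjoin κ (Set.range s) :=
      ((Algebra.adjoin k (Set.range (algebraMap κ L) ∪ Set.range s)).val.toRingHom).codRestrict
        (Algebra.adjoin κ (Set.range s)).toSubring (fun a => h2 a a.2)
    letI : Algebra (Algebra.adjoin k (Set.range (algebraMap κ L) ∪ Set.range s))
      (Algebra.adjoin κ (Set.range s)) := φ.toAlgebra
    haveI : IsScalarTower (Algebra.adjoin k (Set.range (algebraMap κ L) ∪ Set.range s))
      (Algebra.adjoin κ (Set.range s)) L := IsScalarTower.of_algebraMap_eq fun a => rfl
    refine (h1 a).extendScalars ?_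
    intro a b hab
    have h4 := congrArg (fun c : Algebra.adjoin κ (Set.range s) => (c : L)) hab
    exact Subtype.ext h4
  refine Algebra.IsAlgebraic.isTranscendenceBasis_of_lift_le_trdeg_of_finite κ s ?_
  have hsum := lift_trdeg_add_eq k κ L
  obtain ⟨n, hn⟩ := Cardinal.lt_aleph0.mp (trdeg_lt_aleph0 k L)
  have hn' : dimension k L = n := by rw [dimension, hn, Cardinal.toNat_natCast]
  rw [hn, Cardinal.lift_natCast] at hsum
  have hfin2 := hsum.trans_lt (Cardinal.natCast_lt_aleph0 (n := n))
  rw [Cardinal.add_lt_aleph0_iff, Cardinal.lift_lt_aleph0, Cardinal.lift_lt_aleph0] at hfin2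
  obtain ⟨f, hf⟩ := Cardinal.lt_aleph0.mp hfin2.1
  obtain ⟨d, hd⟩ := Cardinal.lt_aleph0.mp hfin2.2
  have hf' : dimension k κ = f := by rw [dimension, hf, Cardinal.toNat_natCast]
  rw [hf, hd, Cardinal.lift_natCast, Cardinal.lift_natCast] at hsum
  have hfd : f + d = n := by exact_mod_cast hsum
  have hcard := card_eq_of_isTranscendenceBasis hy
  rw [hd, Cardinal.mk_fintype, Cardinal.lift_natCast, Cardinal.lift_natCast]
  have : Fintype.card ι ≤ d := by omega
  exact_mod_cast this

/-- fields generated by a finitely generated field are finitely generated -/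
theorem essFiniteType_of_gen [Algebra κ K] [Algebra k K] [Algebra Y K] [IsScalarTower k κ K]
    [IsScalarTower k Y K] [Algebra.EssFiniteType k Y]
    (hgen : ∀ z : K, z ∈ IntermediateField.adjoin κ (Set.range (algebraMap Y K))) :
    Algebra.EssFiniteType κ K := by
  classical
  obtain ⟨s, hs⟩ := IntermediateField.fg_top k Y
  rw [← IntermediateField.fg_top_iff]
  refine ⟨s.image (algebraMap Y K), ?_⟩
  rw [_root_.eq_top_iff]
  intro z _
  refine IntermediateField.adjoin_le_iff.mpr ?_ (hgen z)
  rintro _ ⟨b, rfl⟩
  have hb : b ∈ IntermediateField.adjoin k (s : Set Y) := by rw [hs]; trivial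
  have h1 : IntermediateField.adjoin k (s : Set Y) ≤
      ((IntermediateField.adjoin κ (↑(s.image (algebraMap Y K)) : Set K)).restrictScalars k).comap
        (IsScalarTower.toAlgHom k Y K) := by
    rw [IntermediateField.adjoin_le_iff]
    intro c hc
    exact IntermediateField.subset_adjoin κ _
      (Finset.mem_coe.mpr (Finset.mem_image_of_mem _ (Finset.mem_coe.mp hc)))
  exact h1 hb

end tb

variable {k B Y E L J : Type*} [Field k] [CharZero k] [IsAlgClosed k] [Field B] [Field Y]
  [Field E] [Field L]
  [Algebra k B] [Algebra k Y] [Algebra k E] [Algebra k L] [Algebra B E] [Algebra B L]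
  [Algebra E L] [Algebra Y L] [IsScalarTower k B L] [IsScalarTower k Y L] [IsScalarTower k B E]
  [IsScalarTower k E L] [IsScalarTower B E L] [Fintype J]
  [Algebra.EssFiniteType k B] [Algebra.EssFiniteType k Y] [Algebra.EssFiniteType k E]
  [FiniteDimensional E L] {M : SmoothModel k Y}

theorem kodairaGE_le_aux (hdim : dimension k B + dimension k Y = dimension k E)
    (halg : Algebra.IsAlgebraic (IntermediateField.adjoin k
      (Set.range (algebraMap B L) ∪ Set.range (algebraMap Y L))) L)
    (D : J → MovingDivisor M B L) (hout : UnramifiedOutside k D) {c : ℕ}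
    (hc : KodairaGE B E c) (κ K Ω : Type*) [Field κ] [Field K] [Field Ω] [Algebra B κ]
    [Algebra κ L] [Algebra κ K] [Algebra Y K] [Algebra K L] [IsScalarTower B κ L]
    [IsScalarTower κ K L] [IsScalarTower Y K L] [Algebra.IsAlgebraic B κ] [Algebra K Ω]
    [Algebra L Ω] [IsScalarTower K L Ω] (hΩn : Algebra.IsAlgebraic K L → Normal K Ω)
    (hΩ : FiniteDimensional K L → FiniteDimensional K Ω)
    (hκ : ∀ z : L, IsAlgebraic B z → ∃ a : κ, algebraMap κ L a = z)
    (hgen : ∀ z : K, z ∈ IntermediateField.adjoin κ (Set.range (algebraMap Y K))) :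
    LogKodairaGE M (fun j => (D j).S) c := by
  classical
  letI : Algebra k κ := ((algebraMap B κ).comp (algebraMap k B)).toAlgebra
  haveI : IsScalarTower k B κ := IsScalarTower.of_algebraMap_eq fun _ => rfl
  haveI : IsScalarTower k κ L := IsScalarTower.of_algebraMap_eq fun c => by
    rw [IsScalarTower.algebraMap_apply k B L, IsScalarTower.algebraMap_apply B κ L]
    rfl
  letI : Algebra k K := ((algebraMap κ K).comp (algebraMap k κ)).toAlgebra
  haveI : IsScalarTower k κ K := IsScalarTower.of_algebraMap_eq fun _ => rfl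
  haveI : IsScalarTower k K L := IsScalarTower.of_algebraMap_eq fun c => by
    rw [IsScalarTower.algebraMap_apply k κ L, IsScalarTower.algebraMap_apply κ K L]
    rfl
  haveI : IsScalarTower k Y K := IsScalarTower.of_algebraMap_eq fun c =>
    (algebraMap K L).injective (by
      rw [← IsScalarTower.algebraMap_apply k K L, ← IsScalarTower.algebraMap_apply Y K L,
        ← IsScalarTower.algebraMap_apply k Y L])
  letI : Algebra κ Ω := ((algebraMap K Ω).comp (algebraMap κ K)).toAlgebra
  haveI : IsScalarTower κ K Ω := IsScalarTower.of_algebraMap_eq fun _ => rfl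
  haveI : CharZero B := charZero_of_injective_algebraMap (algebraMap k B).injective
  haveI : CharZero κ := charZero_of_injective_algebraMap (algebraMap B κ).injective
  haveI : Algebra.EssFiniteType k L := Algebra.EssFiniteType.comp k E L
  haveI : Algebra.EssFiniteType B E := Algebra.EssFiniteType.of_comp k B E
  haveI : Algebra.EssFiniteType B L := Algebra.EssFiniteType.of_comp k B L
  haveI : Algebra.EssFiniteType κ L := Algebra.EssFiniteType.of_comp B κ L
  haveI : Algebra.EssFiniteType κ K := essFiniteType_of_gen (k := k) (Y := Y) hgen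
  haveI : Algebra.EssFiniteType K L := Algebra.EssFiniteType.of_comp κ K L
  obtain ⟨x, hx⟩ := exists_tb k B
  obtain ⟨y, hy⟩ := exists_tb k Y
  obtain ⟨zE, hzE⟩ := exists_tb k E
  have hdimL : dimension k E = dimension k L := by
    have h1 : IsTranscendenceBasis k (algebraMap E L ∘ zE) := hzE.algebraMap_comp
    have h2 := card_eq_of_isTranscendenceBasis h1
    rwa [Fintype.card_fin] at h2
  have hdimκ : dimension k κ = dimension k B := by
    have h1 : IsTranscendenceBasis k (algebraMap B κ ∘ x) := hx.algebraMap_comp
    have h2 := card_eq_of_isTranscendenceBasis h1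
    rw [Fintype.card_fin] at h2
    exact h2.symm
  have halg' : ∀ c : L, IsAlgebraic (Algebra.adjoin k
      (Set.range (algebraMap B L) ∪ Set.range (algebraMap Y L))) c := by
    intro c
    rw [← IntermediateField.isAlgebraic_adjoin_iff]
    exact halg.isAlgebraic c
  have halgκ : ∀ c : L, IsAlgebraic (Algebra.adjoin k
      (Set.range (algebraMap κ L) ∪ Set.range (algebraMap Y L))) c := by
    intro c
    refine (halg' c).adjoin_of_forall_isAlgebraic ?_
    rintro _ ⟨⟨b, rfl⟩ | ⟨b, rfl⟩, h⟩
    · exact absurd (Or.inl ⟨algebraMap B κ b, (IsScalarTower.algebraMap_apply B κ L b).symm⟩) h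
    · exact absurd (Or.inr ⟨b, rfl⟩) h
  have htbκ : ∀ y : Fin (dimension k Y) → Y, IsTranscendenceBasis k y →
      IsTranscendenceBasis κ (fun i => algebraMap Y L (y i)) := fun y hy =>
    tb_over (by rw [hdimκ, hdim, hdimL]) halgκ hy
  have htbB : IsTranscendenceBasis B (fun i => algebraMap Y L (y i)) :=
    tb_over (hdim.trans hdimL) halg' hy
  haveI hMne : Nonempty M.I := by
    obtain ⟨i, -⟩ := M.cover 1 (fun c hc => Valuation.one_apply_of_ne_zero (by simpa using hc))
    exact ⟨i⟩
  -- `L` is finite over `K`
  have hK₀ : ∀ a ∈ IntermediateField.adjoin k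
      (Set.range (algebraMap B L) ∪ Set.range (algebraMap Y L)), ∃ b : K, algebraMap K L b = a := by
    intro a ha
    have h1 : IntermediateField.adjoin k
        (Set.range (algebraMap B L) ∪ Set.range (algebraMap Y L)) ≤
        (IsScalarTower.toAlgHom k K L).fieldRange := by
      rw [IntermediateField.adjoin_le_iff]
      rintro _ (⟨b, rfl⟩ | ⟨b, rfl⟩)
      · refine ⟨algebraMap κ K (algebraMap B κ b), ?_⟩
        change algebraMap K L (algebraMap κ K (algebraMap B κ b)) = _
        rw [← IsScalarTower.algebraMap_apply κ K L, ← IsScalarTower.algebraMap_apply B κ L]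
      · exact ⟨algebraMap Y K b, (IsScalarTower.algebraMap_apply Y K L b).symm⟩
    obtain ⟨b, hb⟩ := h1 ha
    exact ⟨b, hb⟩
  haveI : Algebra.IsAlgebraic K L := by
    refine ⟨fun a => ?_⟩
    let R := IntermediateField.adjoin k
      (Set.range (algebraMap B L) ∪ Set.range (algebraMap Y L))
    let e := (IsScalarTower.toAlgHom k K L).fieldRange
    choose g hg using fun r : R => hK₀ r r.2
    have hinj := (algebraMap K L).injective
    let φ : R →+* K :=
      { toFun := g
        map_one' := hinj (by rw [hg, map_one]; rfl)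
        map_mul' := fun r s => hinj (by rw [hg, map_mul, hg, hg]; rfl)
        map_zero' := hinj (by rw [hg, map_zero]; rfl)
        map_add' := fun r s => hinj (by rw [hg, map_add, hg, hg]; rfl) }
    letI : Algebra R K := φ.toAlgebra
    haveI : IsScalarTower R K L := IsScalarTower.of_algebraMap_eq fun r => (hg r).symm
    exact (halg.isAlgebraic a).extendScalars φ.injective
  haveI : FiniteDimensional K L := Algebra.finite_of_essFiniteType_of_isAlgebraic
  haveI : CharZero K := charZero_of_injective_algebraMap (algebraMap κ K).injective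
  haveI : FiniteDimensional K Ω := hΩ inferInstance
  haveI : Normal K Ω := hΩn inferInstance
  haveI : IsGalois K Ω := IsGalois.mk
  -- the dimensions
  have hdimκL : dimension κ L = dimension k Y := by
    have h1 := card_eq_of_isTranscendenceBasis (htbκ y hy)
    rw [Fintype.card_fin] at h1
    exact h1.symm
  have hdimκK : dimension κ K = dimension κ L := by
    obtain ⟨z, hz⟩ := exists_tb κ K
    have h1 : IsTranscendenceBasis κ (algebraMap K L ∘ z) := hz.algebraMap_comp
    have h2 := card_eq_of_isTranscendenceBasis h1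
    rwa [Fintype.card_fin] at h2
  have htbK : ∀ y : Fin (dimension k Y) → Y, IsTranscendenceBasis k y →
      IsTranscendenceBasis κ (fun i => algebraMap Y K (y i)) := by
    intro y hy
    refine isTranscendenceBasis_of_card (by rw [Fintype.card_fin, hdimκK, hdimκL]) ?_
    refine AlgebraicIndependent.of_comp (IsScalarTower.toAlgHom κ K L) ?_
    have h2 : (⇑(IsScalarTower.toAlgHom κ K L) ∘ fun i => algebraMap Y K (y i)) =
        fun i => algebraMap Y L (y i) :=
      funext fun i => (IsScalarTower.algebraMap_apply Y K L (y i)).symm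
    rw [h2]
    exact (htbκ y hy).1
  -- the equations of the divisors
  choose α hα using fun j l => hκ ((D j).a l) ((D j).a_alg l)
  set s : J → K := fun j => ∑ l, algebraMap κ K (α j l) * algebraMap Y K ((D j).s l) with hs
  have hsL : ∀ j, algebraMap K L (s j) = (D j).sec := by
    intro j
    rw [hs, MovingDivisor.sec, map_sum]
    refine Finset.sum_congr rfl fun l _ => ?_
    rw [map_mul, ← IsScalarTower.algebraMap_apply κ K L, ← IsScalarTower.algebraMap_apply Y K L,
      hα]
  have hS : Setup M (fun j => (D j).S) κ K L s := by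
    refine ⟨fun i j => ?_, fun j h0 => ?_, htbK, hgen, ?_⟩
    · refine ⟨∑ l, algebraMap κ K (α j l) * algebraMap Y K ((D j).s l / (D j).S.gen i),
        Subalgebra.sum_mem _ fun l _ => Subalgebra.mul_mem _ (Subalgebra.algebraMap_mem _ _)
          (Algebra.subset_adjoin ⟨_, (D j).local_mem i l, rfl⟩), ?_⟩
      rw [hs, Finset.sum_mul]
      refine Finset.sum_congr rfl fun l _ => ?_
      rw [mul_assoc, ← map_mul, div_mul_cancel₀ _ ((D j).S.ne i)]
    · refine sec_ne_zero (D j) (fun hx hy => sumElim_tb (hdim.trans hdimL) halg' hx hy) hx ?_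
      rw [← hsL, h0, map_zero]
    · intro w hw i hi hj z hz
      obtain ⟨t, ht, ht1, ht2⟩ := hout w (IsDivisorial.under hw) (fun b hb => by
        rw [IsScalarTower.algebraMap_apply B κ L]
        exact hw.const _ (by simpa using hb)) i hi (fun j => by rw [← hsL]; exact hj j) z hz
      obtain ⟨b, hb⟩ := hK₀ t ht
      exact ⟨b, by rw [hb]; exact ht1, by rw [hb]; exact ht2⟩
  -- the forms
  obtain ⟨z, hz⟩ := exists_tb B E
  obtain ⟨m, hm, f₀, hf₀, hf₀ne, f, hf, hff⟩ := hc.exists_coord hz
  have hzL : IsTranscendenceBasis B (fun i => algebraMap E L (z i)) := hz.algebraMap_comp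
  have hn : dimension k Y = dimension B E := by
    have h1 := card_eq_of_isTranscendenceBasis hzL
    have h2 := card_eq_of_isTranscendenceBasis htbB
    rw [Fintype.card_fin] at h1 h2
    rw [h1, h2]
  let e : Fin (dimension k Y) ≃ Fin (dimension B E) := finCongr hn
  have hzL' : IsTranscendenceBasis B ((fun i => algebraMap E L (z i)) ∘ e) :=
    (isTranscendenceBasis_equiv e).mpr hzL
  have hpull : ∀ g ∈ WReg B z m, algebraMap E L g *
      jac htbB ((fun i => algebraMap E L (z i)) ∘ e) ^ m ∈
        WReg κ (fun i => algebraMap Y L (y i)) m := by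
    intro g hg
    exact WReg.base htbB (WReg.change hzL' htbB (Pf72953.WReg.reindex (WReg.pull hz hg) e))
  have hfL : AlgebraicIndependent B (fun i => algebraMap E L (f i)) :=
    hf.map' (f := IsScalarTower.toAlgHom B E L) (algebraMap E L).injective
  refine upper hS Ω hy hm (hpull f₀ hf₀) ?_ (hfL.extendScalars κ) (fun i => ?_)
  · exact mul_ne_zero (by simpa using hf₀ne) (pow_ne_zero _ (jac_ne_zero hzL' htbB))
  · have h1 := hpull _ (hff i)
    rwa [map_mul, mul_assoc] at h1

theorem kodairaGE_le (hdim : dimension k B + dimension k Y = dimension k E)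
    (halg : Algebra.IsAlgebraic (IntermediateField.adjoin k
      (Set.range (algebraMap B L) ∪ Set.range (algebraMap Y L))) L)
    (D : J → MovingDivisor M B L) (hout : UnramifiedOutside k D) {c : ℕ}
    (hc : KodairaGE B E c) : LogKodairaGE M (fun j => (D j).S) c := by
  let κ := algebraicClosure B L
  let K := IntermediateField.adjoin κ (Set.range (algebraMap Y L))
  letI algYK : Algebra Y K := ((algebraMap Y L).codRestrict K.toSubring
    (fun a => IntermediateField.subset_adjoin κ _ ⟨a, rfl⟩)).toAlgebra
  haveI : IsScalarTower Y K L := IsScalarTower.of_algebraMap_eq fun _ => rfl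
  haveI : Algebra.IsAlgebraic B κ := inferInstance
  let Ω := IntermediateField.normalClosure K L (AlgebraicClosure L)
  refine kodairaGE_le_aux hdim halg D hout hc κ K Ω (fun h => ?_) (fun h => inferInstance)
    (fun z hz => ⟨⟨z, mem_algebraicClosure_iff.mpr hz⟩, rfl⟩) (fun z => ?_)
  · haveI : IsAlgClosure K (AlgebraicClosure L) :=
      ⟨inferInstance, Algebra.IsAlgebraic.trans K L (AlgebraicClosure L)⟩
    haveI : Normal K (AlgebraicClosure L) := IsAlgClosure.normal K (AlgebraicClosure L)
    infer_instance
  · set N := IntermediateField.adjoin κ (Set.range (algebraMap Y K)) with hN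
    have h1 : K ≤ N.map K.val := by
      rw [IntermediateField.adjoin_le_iff]
      rintro _ ⟨b, rfl⟩
      exact ⟨algebraMap Y K b, IntermediateField.subset_adjoin κ _ ⟨b, rfl⟩, rfl⟩
    obtain ⟨n, hn, hnz⟩ := h1 z.2
    have h2 : n = z := Subtype.ext hnz
    rwa [← h2]

theorem kodairaDim_le (hdim : dimension k B + dimension k Y = dimension k E)
    (halg : Algebra.IsAlgebraic (IntermediateField.adjoin k
      (Set.range (algebraMap B L) ∪ Set.range (algebraMap Y L))) L)
    (D : J → MovingDivisor M B L) (hout : UnramifiedOutside k D) :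
    kodairaDim B E ≤ logKodairaDim M (fun j => (D j).S) :=
  iSup₂_le fun _ hc => le_iSup₂_of_le _ (kodairaGE_le hdim halg D hout hc) le_rfl

end Pf72953.Up
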